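import Pool.Agent.K3h15.DM.Gen

/-! # The roots of the b-functions -/

set_option autoImplicit false

namespace Pool.Agent.K3h15.DM

open MvPolynomial
open Pool.Agent.H628R4.TP (weylS IsBFunction)

theorem exists_l {Q1 Q2 : Polynomial ℂ} (h1 : Q1 ≠ 0) (h2 : Q2 ≠ 0) :
    ∃ l : ℝ, 0 < l ∧ Q1.eval (l : ℂ) ≠ 0 ∧ Q2.eval (l : ℂ) ≠ 0 := by
  by_contra hcon
  push Not at hcon
  have h3 : Q1 * Q2 = 0 := by
    refine poly_eq 1 fun s hs => ?_
    rw [Polynomial.eval_mul, Polynomial.eval_zero]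
    by_cases h : Q1.eval (s : ℂ) = 0
    · rw [h, zero_mul]
    · have := hcon s (by exact_mod_cast hs) (by exact_mod_cast h)
      have h4 : Q2.eval (s : ℂ) = 0 := by exact_mod_cast this
      rw [h4, mul_zero]
  rcases mul_eq_zero.mp h3 with h | h
  · exact h1 h
  · exact h2 h

theorem Yp_hom (n M : ℕ) : (Yp n ^ M).IsHomogeneous (n * M) := by
  refine IsHomogeneous.pow ?_ M
  have := IsHomogeneous.prod (Finset.univ : Finset (Fin n)) (fun i => (X i : Rx n)) (fun _ => 1)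
    (fun i _ => isHomogeneous_X ℂ i)
  simpa [Yp] using this

section

variable {n : ℕ} {DD : Fin n → Fin n → (Rx n →ₗ[ℂ] Rx n)}

theorem sym_Dl2 {F : MvPolynomial (Fin n) ℂ} (hF : IsDisc n F) : Sym (Dl n ^ 2) := by
  rw [← sh_disc hF 0]
  exact sym_sh n 0 F

/-- the roots from the free clusters -/
theorem roots_one (hDD : IsDD DD) (hL : StmL) (hV1 : StmV1) (hMat : StmMat) (hFun : StmFun)
    (hExp : StmExp) (hPol : StmPol) (hAdj : StmAdj) {F : MvPolynomial (Fin n) ℂ}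
    (hF : IsDisc n F) {a r : ℕ} (z : Fin r → ℂ) (b : Fin r → ℕ) {c : Polynomial ℂ}
    (hc : IsBFunction (F ^ a * ∏ j, hz n (z j) ^ b j) c) {m i : ℕ} (hm : 2 ≤ m) (hmn : m ≤ n)
    (hi : i < a) : c.eval (-(1 / 2 + 1 / (m : ℂ) + i) / a) = 0 := by
  have hn : 0 < n := by omega
  have hD2 := sym_Dl2 hF
  obtain ⟨z0, hz0⟩ : ∃ z0 : ℂ, ∀ j, z j ≠ z0 := by
    obtain ⟨z0, h⟩ := (Set.finite_range z).infinite_compl.nonempty
    exact ⟨z0, fun j hj => h ⟨j, hj⟩⟩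
  set u : MvPolynomial (Fin n) ℂ := ∏ j, hz n (z j) ^ b j with hu
  have hu0 : u ≠ 0 := Finset.prod_ne_zero_iff.mpr fun j _ => pow_ne_zero _ (hz_ne n _)
  have hc' : IsBFunction (F ^ a * hz n z0 ^ 0 * u) c := by
    rw [pow_zero, mul_one]
    exact hc
  obtain ⟨M, hM⟩ := gen hn hDD hMat hFun hExp hPol hAdj hF z0 (b := 0) (by omega) hu0 hc'
  have ha0 : (a : ℂ) ≠ 0 := by
    have : a ≠ 0 := by omega
    exact_mod_cast this
  have hm0 : (m : ℂ) ≠ 0 := by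
    have : m ≠ 0 := by omega
    exact_mod_cast this
  set S0 : ℂ := -(1 / 2 + 1 / (m : ℂ) + i) / a with hS0
  set κ : ℂ := a * S0 + 1 / 2 with hκdef
  have hκ : 1 + (κ + i) * m = 0 := by
    rw [hκdef, hS0]
    field_simp
    ring
  -- the exponent `e`
  set p2 : Rx n := sh n z0 (u ^ M) with hp2
  have hp2s : Sym p2 := sym_sh n z0 _
  have hp2c : constantCoeff p2 ≠ 0 := by
    rw [hp2, hu, map_pow, map_pow, map_prod, map_prod]
    refine pow_ne_zero _ (Finset.prod_ne_zero_iff.mpr fun j _ => ?_)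
    rw [map_pow, map_pow, cc_sh_hz]
    exact pow_ne_zero _ (pow_ne_zero _ (sub_ne_zero.mpr (hz0 j)))
  have hfin := (hPol n DD 1 (n * (M + 1)) (Yp n ^ (M + 1))).2 κ one_pos
    (Yp_hom n (M + 1)).totalDegree_le (Yp_hom n (M + 1)) (by
      rw [map_pow, Yp, map_prod]
      simp)
  obtain ⟨e, he⟩ : ∃ e : ℕ, Ex DD 1 (n * (M + 1)) κ e (Yp n ^ (M + 1)) ≠ 0 := by
    by_contra hcon
    push Not at hcon
    refine Set.infinite_univ (α := ℕ) (hfin.subset fun v _ => hcon v)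
  -- the parameter `l`
  obtain ⟨Q1, hQ1, _⟩ := Ex_l DD (n * (M + 1)) κ e (Yp n ^ (M + 1))
  obtain ⟨Q2, hQ2, hQ2'⟩ := Ex_l DD p2.totalDegree κ ((e : ℂ) + (M + 1 : ℕ)) p2
  have hQ1n : Q1 ≠ 0 := by
    intro h
    have := hQ1 1
    rw [h, Polynomial.eval_zero] at this
    exact he this.symm
  have hQ2n : Q2 ≠ 0 := by
    intro h
    rw [h, Polynomial.eval_zero] at hQ2'
    exact hp2c hQ2'.symm
  obtain ⟨l, hl, hl1, hl2⟩ := exists_l hQ1n hQ2n
  rw [hQ1] at hl1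
  rw [hQ2] at hl2
  set v1 : MvPolynomial (Fin n) ℂ := (-1) ^ (n * (M + 1)) * hz n z0 ^ (M + 1) with hv1
  have hs1 : sh n z0 v1 = Yp n ^ (M + 1) := by
    rw [hv1, map_mul, map_pow, map_pow, map_neg, map_one, sh_hz_self, mul_pow, ← pow_mul,
      ← mul_assoc, ← mul_pow]
    simp
  have hs2 : sh n z0 (v1 * u ^ M) = Dl n ^ (2 * 0) * Yp n ^ (M + 1) * p2 := by
    rw [map_mul, hs1, mul_zero, pow_zero, one_mul]
  have h := hM l hl e v1 (Or.inr (Dvd.intro_left _ rfl)) _ le_rfl S0 (by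
    intro r' N' hN'
    exact van_one hDD hL hV1 hFun hExp hPol hD2 hl hm hmn hi hκ (sym_sh n z0 r') hN')
  rw [hs2, mult hDD hFun hExp hPol hD2 hl 0 (M + 1) hp2s le_rfl (N1 := n * (M + 1))
    (N2 := p2.totalDegree) (by
      rw [mul_zero, pow_zero, one_mul]
      exact (Yp_hom n (M + 1)).totalDegree_le) le_rfl] at h
  have h5 : ((0 : ℕ) : ℂ) * S0 + (e : ℂ) = e := by simp
  rw [← hκdef, h5, mul_zero, pow_zero, one_mul, Nat.cast_zero, add_zero] at h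
  rcases mul_eq_zero.mp h with h | h
  · exact h
  · rcases mul_eq_zero.mp h with h | h
    · exact absurd h hl1
    · exact absurd h hl2

/-- the roots from the clusters at `z_j` -/
theorem roots_two (hDD : IsDD DD) (hL : StmL) (hV2 : StmV2) (hMat : StmMat) (hFun : StmFun)
    (hExp : StmExp) (hPol : StmPol) (hAdj : StmAdj) {F : MvPolynomial (Fin n) ℂ}
    (hF : IsDisc n F) {a r : ℕ} (ha : 1 ≤ a) (z : Fin r → ℂ) (hzi : Function.Injective z)
    (b : Fin r → ℕ) {c : Polynomial ℂ}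
    (hc : IsBFunction (F ^ a * ∏ j, hz n (z j) ^ b j) c) {j : Fin r} (hb : 1 ≤ b j) {m i i' : ℕ}
    (hm : 1 ≤ m) (hmn : m ≤ n) (hi : i ≤ a) (hi' : i' ≤ b j)
    (hii : i' < b j ∨ (2 ≤ m ∧ i < a)) :
    c.eval (-(((m : ℂ) + 1) / 2 + i * (m - 1) + i') / (a * (m - 1) + b j)) = 0 := by
  have hn : 0 < n := by omega
  have hD2 := sym_Dl2 hF
  set u : MvPolynomial (Fin n) ℂ := ∏ k ∈ Finset.univ.erase j, hz n (z k) ^ b k with hu
  have hu0 : u ≠ 0 := Finset.prod_ne_zero_iff.mpr fun j _ => pow_ne_zero _ (hz_ne n _)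
  have hc' : IsBFunction (F ^ a * hz n (z j) ^ b j * u) c := by
    rw [mul_assoc, hu, Finset.mul_prod_erase Finset.univ (fun k => hz n (z k) ^ b k)
      (Finset.mem_univ j)]
    exact hc
  obtain ⟨M, hM⟩ := gen hn hDD hMat hFun hExp hPol hAdj hF (z j) ha hu0 hc'
  have hden : ((a : ℂ) * (m - 1) + b j) ≠ 0 := by
    have h1 : ((a * (m - 1) + b j : ℕ) : ℂ) ≠ 0 := by
      have : a * (m - 1) + b j ≠ 0 := by omega
      exact_mod_cast this
    rw [Nat.cast_add, Nat.cast_mul, Nat.cast_sub hm, Nat.cast_one] at h1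
    exact h1
  set S0 : ℂ := -(((m : ℂ) + 1) / 2 + i * (m - 1) + i') / (a * (m - 1) + b j) with hS0
  have hκ : (((b j : ℂ) * S0 + (0 : ℕ)) + i') + 1 + ((a * S0 + 1 / 2) + i) * (m - 1) = 0 := by
    have h1 : S0 * ((a : ℂ) * (m - 1) + b j) = -(((m : ℂ) + 1) / 2 + i * (m - 1) + i') := by
      rw [hS0, div_mul_cancel₀ _ hden]
    rw [Nat.cast_zero]
    linear_combination h1
  set p2 : Rx n := sh n (z j) (u ^ M) with hp2
  have hp2c : constantCoeff p2 ≠ 0 := by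
    rw [hp2, hu, map_pow, map_pow, map_prod, map_prod]
    refine pow_ne_zero _ (Finset.prod_ne_zero_iff.mpr fun k hk => ?_)
    rw [map_pow, map_pow, cc_sh_hz]
    exact pow_ne_zero _ (pow_ne_zero _ (sub_ne_zero.mpr
      (fun h => (Finset.ne_of_mem_erase hk) (hzi h))))
  obtain ⟨Q2, hQ2, hQ2'⟩ := Ex_l DD p2.totalDegree (a * S0 + 1 / 2) ((b j : ℂ) * S0 + (0 : ℕ)) p2
  have hQ2n : Q2 ≠ 0 := by
    intro h
    rw [h, Polynomial.eval_zero] at hQ2'
    exact hp2c hQ2'.symm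
  obtain ⟨l, hl, _, hl2⟩ := exists_l (one_ne_zero (α := Polynomial ℂ)) hQ2n
  rw [hQ2] at hl2
  have h := hM l hl 0 1 (Or.inl ⟨hb, rfl⟩) p2.totalDegree (by rw [one_mul]) S0 (by
    intro r' N' hN'
    exact van_two hDD hL hV2 hFun hExp hPol hD2 hl hm hmn hi hi' hii hκ
      (sym_sh n (z j) r') hN')
  rw [one_mul] at h
  rcases mul_eq_zero.mp h with h | h
  · exact h
  · exact absurd h hl2

end

end Pool.Agent.K3h15.DM
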