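import Pool.Agent.TH192.DT.TopZ

/-! # Rational functions with poles at the numbers `-ν_i / N_i` -/

set_option autoImplicit false

namespace Pool.Agent.K3h15.DM

open Pool.Agent.TH192.DT

/-- The sum `∑_k χ_k ∏_i (1 / (N_i s + ν_i)) ^ (k_i)`, with arbitrary coefficients `χ_k`: the form of
the topological zeta function, computed with divisors which have the numerical data `(ν_i, N_i)`. -/
noncomputable def Zt {ι : Type} [Fintype ι] (ν N : ι → ℕ) (χ : (ι → ℕ) →₀ ℂ) : RatFunc ℂ :=
  χ.sum fun k x => RatFunc.C x *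
    ∏ i, (((N i : RatFunc ℂ) * RatFunc.X + (ν i : RatFunc ℂ))⁻¹) ^ k i

theorem reg_pow {s : ℂ} {f : RatFunc ℂ} (h : Reg s f) (k : ℕ) : Reg s (f ^ k) := by
  induction k with
  | zero =>
    have := reg_C s 1
    rw [map_one] at this
    rwa [pow_zero]
  | succ k ih =>
    rw [pow_succ]
    exact reg_mul ih h

/-- a pole is one of the numbers `-ν_i / N_i` -/
theorem pole_Zt {ι : Type} [Fintype ι] (ν N : ι → ℕ) (χ : (ι → ℕ) →₀ ℂ)
    (hν : ∀ i, 0 < ν i) (s : ℂ) (hs : (Zt ν N χ).denom.eval s = 0) :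
    ∃ i, 0 < N i ∧ s = -(ν i : ℂ) / N i := by
  by_contra hcon
  push Not at hcon
  have hreg : ∀ i, (N i : ℂ) * s + ν i ≠ 0 := by
    intro i h
    rcases Nat.eq_zero_or_pos (N i) with h0 | h0
    · rw [h0, Nat.cast_zero, zero_mul, zero_add] at h
      have := hν i
      have h1 : ν i = 0 := by exact_mod_cast h
      omega
    · apply hcon i h0
      have h1 : (N i : ℂ) ≠ 0 := by
        have : N i ≠ 0 := by omega
        exact_mod_cast this
      rw [eq_div_iff h1]
      linear_combination h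
  refine reg_denom (s := s) (f := Zt ν N χ) ?_ hs
  rw [Zt, Finsupp.sum]
  refine reg_sum s _ _ fun k _ => reg_mul (reg_C s _) (reg_prod s _ _ fun i _ => ?_)
  exact reg_pow (reg_lin s (N i) (ν i) (hreg i)) (k i)

end Pool.Agent.K3h15.DM
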