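import Pool.Agent.K3h15.DM.Stm

/-! # Polynomials in the coefficients as symmetric polynomials of the roots -/

set_option autoImplicit false

namespace Pool.Agent.K3h15.DM

open MvPolynomial

/-- The polynomial `F` in the coefficients is the discriminant: at the coefficients of
`∏ (T - x_i)` it has the value `∏_{i < j} (x_j - x_i) ^ 2`. -/
def IsDisc (n : ℕ) (F : MvPolynomial (Fin n) ℂ) : Prop :=
  ∀ x : Fin n → ℂ, eval (fun j : Fin n => (∏ i, (Polynomial.X - Polynomial.C (x i))).coeff j) F =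
    ∏ i : Fin n, ∏ j ∈ Finset.Ioi i, (x j - x i) ^ 2

/-- The value `h(w)` of the polynomial `h = T ^ n + ∑ a_j T ^ j` at the point `w`. -/
noncomputable def hz (n : ℕ) (w : ℂ) : MvPolynomial (Fin n) ℂ :=
  C (w ^ n) + ∑ j : Fin n, C (w ^ (j : ℕ)) * X j

theorem sh_X (n : ℕ) (z : ℂ) (j : Fin n) : sh n z (X j) = (hx n z).coeff j := by
  rw [sh, aeval_X]

theorem sh_C (n : ℕ) (z c : ℂ) : sh n z (C c) = C c := by
  rw [← MvPolynomial.algebraMap_eq, AlgHom.commutes]

theorem hx_monic (n : ℕ) (z : ℂ) : (hx n z).Monic :=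
  Polynomial.monic_prod_of_monic _ _ fun _ _ => Polynomial.monic_X_sub_C _

theorem hx_natDegree (n : ℕ) (z : ℂ) : (hx n z).natDegree = n := by
  rw [hx, Polynomial.natDegree_prod_of_monic _ _ fun _ _ => Polynomial.monic_X_sub_C _]
  simp only [Polynomial.natDegree_X_sub_C, Finset.sum_const, Finset.card_univ, Fintype.card_fin,
    smul_eq_mul, mul_one]

theorem sh_hz (n : ℕ) (z w : ℂ) : sh n z (hz n w) = ∏ i, (C w - (X i + C z)) := by
  have h1 : (hx n z).eval (C w) = ∏ i, (C w - (X i + C z)) := by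
    rw [hx, Polynomial.eval_prod]
    exact Finset.prod_congr rfl fun i _ => by simp
  rw [← h1, Polynomial.eval_eq_sum_range, hx_natDegree, Finset.sum_range_succ,
    hz, map_add, map_sum, sh_C, Finset.sum_range, add_comm]
  congr 1
  · refine Finset.sum_congr rfl fun j _ => ?_
    rw [map_mul, sh_C, sh_X, map_pow, mul_comm]
  · have h2 := hx_monic n z
    rw [Polynomial.Monic, Polynomial.leadingCoeff, hx_natDegree] at h2
    rw [h2, one_mul, map_pow]

theorem sh_hz_self (n : ℕ) (z : ℂ) : sh n z (hz n z) = (-1) ^ n * Yp n := by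
  rw [sh_hz, Yp]
  have h : ∀ i : Fin n, (C z - (X i + C z) : Rx n) = -1 * X i := fun i => by ring
  rw [Finset.prod_congr rfl fun i _ => h i, Finset.prod_mul_distrib]
  simp

theorem cc_sh_hz (n : ℕ) (z w : ℂ) : constantCoeff (sh n z (hz n w)) = (w - z) ^ n := by
  rw [sh_hz, map_prod]
  simp

theorem sym_sh (n : ℕ) (z : ℂ) (g : MvPolynomial (Fin n) ℂ) : Sym (sh n z g) := by
  intro σ
  have h : ((rename σ : Rx n →ₐ[ℂ] Rx n).comp (sh n z)) = sh n z := by
    apply MvPolynomial.algHom_ext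
    intro j
    rw [AlgHom.comp_apply, sh_X]
    have h1 : (hx n z).map (rename σ : Rx n →ₐ[ℂ] Rx n).toRingHom = hx n z := by
      rw [hx, Polynomial.map_prod]
      have h2 : ∀ i : Fin n, (Polynomial.X - Polynomial.C (X i + C z) : Polynomial (Rx n)).map
          (rename σ : Rx n →ₐ[ℂ] Rx n).toRingHom =
          Polynomial.X - Polynomial.C (X (σ i) + C z) := by
        intro i
        simp
      rw [Finset.prod_congr rfl fun i _ => h2 i]
      exact Equiv.prod_comp σ (fun i => (Polynomial.X - Polynomial.C (X i + C z) :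
        Polynomial (Rx n)))
    conv_rhs => rw [← h1]
    rw [Polynomial.coeff_map]
    rfl
  rw [← AlgHom.comp_apply, h]

theorem sym_mul {n : ℕ} {p q : Rx n} (hp : Sym p) (hq : Sym q) : Sym (p * q) := fun σ => by
  rw [map_mul, hp σ, hq σ]

theorem sym_pow {n : ℕ} {p : Rx n} (hp : Sym p) (k : ℕ) : Sym (p ^ k) := fun σ => by
  rw [map_pow, hp σ]

theorem sym_one {n : ℕ} : Sym (1 : Rx n) := fun _ => map_one _

theorem sym_Yp (n : ℕ) : Sym (Yp n) := fun σ => by
  rw [Yp, map_prod]
  simp only [rename_X]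
  exact Equiv.prod_comp σ (fun i => (X i : Rx n))

theorem aeval_eq {n : ℕ} (x : Fin n → ℂ) (p : Rx n) : (aeval x : Rx n →ₐ[ℂ] ℂ) p = eval x p :=
  congrArg (fun t : Rx n →+* ℂ => t p) (MvPolynomial.coe_aeval_eq_eval x)

theorem sh_disc {n : ℕ} {F : MvPolynomial (Fin n) ℂ} (hF : IsDisc n F) (z : ℂ) :
    sh n z F = Dl n ^ 2 := by
  apply MvPolynomial.funext
  intro x
  have h1 : eval x (sh n z F) = eval (fun j : Fin n => eval x ((hx n z).coeff j)) F := by
    have h0 : ((aeval x : Rx n →ₐ[ℂ] ℂ).comp (sh n z)) =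
        aeval (fun j : Fin n => eval x ((hx n z).coeff j)) := by
      apply MvPolynomial.algHom_ext
      intro j
      rw [AlgHom.comp_apply, sh_X, aeval_X, aeval_eq]
    have h3 := congrArg (fun t => t F) h0
    simpa only [AlgHom.comp_apply, aeval_eq] using h3
  have h2 : ∀ j : Fin n, eval x ((hx n z).coeff j) =
      (∏ i, (Polynomial.X - Polynomial.C (x i + z))).coeff j := by
    intro j
    have : (hx n z).map (eval x) = ∏ i, (Polynomial.X - Polynomial.C (x i + z)) := by
      rw [hx, Polynomial.map_prod]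
      simp
    rw [← this, Polynomial.coeff_map]
  rw [h1]
  simp only [h2]
  rw [hF fun i => x i + z, map_pow, Dl, map_prod, ← Finset.prod_pow]
  refine Finset.prod_congr rfl fun i _ => ?_
  rw [map_prod, ← Finset.prod_pow]
  refine Finset.prod_congr rfl fun j _ => ?_
  simp

theorem Dl_ne (n : ℕ) : Dl n ≠ 0 := by
  rw [Dl]
  refine Finset.prod_ne_zero_iff.mpr fun i _ => Finset.prod_ne_zero_iff.mpr fun j hj => ?_
  rw [sub_ne_zero]
  intro h
  exact (Finset.mem_Ioi.mp hj).ne' (MvPolynomial.X_injective h)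

theorem Yp_ne (n : ℕ) : Yp n ≠ 0 := by
  rw [Yp]
  exact Finset.prod_ne_zero_iff.mpr fun i _ => X_ne_zero i

end Pool.Agent.K3h15.DM
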