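import Pool.Agent.K3h15.DM.Stm

/-!
# Brick DD: divided differences
-/

set_option autoImplicit false

namespace Pool.Agent.K3h15.DM

open MvPolynomial

/-! ### Existence -/

lemma sub_rename_dvd {n : ℕ} (i j : Fin n) (p : Rx n) :
    (X i - X j : Rx n) ∣ p - rename (Equiv.swap i j) p := by
  induction p using MvPolynomial.induction_on with
  | C a => simp
  | add p q hp hq =>
    rw [map_add]
    have := dvd_add hp hq
    convert this using 1
    ring
  | mul_X p k hp =>
    rw [map_mul, rename_X]
    have h2 : (X i - X j : Rx n) ∣ X k - X (Equiv.swap i j k) := by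
      by_cases hki : k = i
      · subst hki; rw [Equiv.swap_apply_left]
      · by_cases hkj : k = j
        · subst hkj; rw [Equiv.swap_apply_right]
          exact ⟨-1, by ring⟩
        · rw [Equiv.swap_apply_of_ne_of_ne hki hkj, sub_self]
          exact dvd_zero _
    have h3 : p * X k - rename (Equiv.swap i j) p * X (Equiv.swap i j k) =
        (p - rename (Equiv.swap i j) p) * X k +
          rename (Equiv.swap i j) p * (X k - X (Equiv.swap i j k)) := by ring
    rw [h3]
    exact dvd_add (hp.mul_right _) (h2.mul_left _)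

lemma X_sub_ne {n : ℕ} {i j : Fin n} (h : i ≠ j) : (X i - X j : Rx n) ≠ 0 := by
  rw [sub_ne_zero]
  exact fun h' => h (X_injective h')

theorem t_DD : StmDD := by
  intro n
  have key : ∀ i j : Fin n, ∃ D : Rx n →ₗ[ℂ] Rx n, i ≠ j → ∀ p,
      (X i - X j) * D p = p - rename (Equiv.swap i j) p := by
    intro i j
    by_cases h : i = j
    · exact ⟨0, fun h' => absurd h h'⟩
    · choose D hD using fun p : Rx n => sub_rename_dvd i j p
      refine ⟨{ toFun := D, map_add' := ?_, map_smul' := ?_ }, fun _ p => (hD p).symm⟩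
      · intro p q
        apply mul_left_cancel₀ (X_sub_ne h)
        rw [← hD, mul_add, ← hD, ← hD, map_add]
        ring
      · intro c p
        apply mul_left_cancel₀ (X_sub_ne h)
        rw [← hD, RingHom.id_apply, mul_smul_comm, ← hD, map_smul, smul_sub]
  choose DD hDD using key
  exact ⟨DD, fun i j h p => hDD i j h p⟩

/-! ### Invariance -/

section

variable {n : ℕ} {DD : Fin n → Fin n → (Rx n →ₗ[ℂ] Rx n)}

lemma rename_DD (hDD : IsDD DD) (σ : Equiv.Perm (Fin n)) {i j : Fin n} (h : i ≠ j) (q : Rx n) :
    rename σ (DD i j q) = DD (σ i) (σ j) (rename σ q) := by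
  have hσ : σ i ≠ σ j := fun h' => h (σ.injective h')
  apply mul_left_cancel₀ (X_sub_ne hσ)
  rw [hDD _ _ hσ]
  have h1 := congrArg (rename σ) (hDD i j h q)
  rw [map_mul, map_sub, rename_X, rename_X, map_sub] at h1
  rw [h1, rename_rename, rename_rename]
  have : (σ : Fin n → Fin n) ∘ (Equiv.swap i j) = (Equiv.swap (σ i) (σ j)) ∘ σ := by
    have h2 := Equiv.mul_swap_eq_swap_mul σ i j
    funext x
    exact congrArg (fun f : Equiv.Perm (Fin n) => f x) h2
  rw [this]

lemma sum_erase_eq {M : Type} [AddCommMonoid M] (i : Fin n) (f : Fin n → M) :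
    ∑ j ∈ Finset.univ.erase i, f j = ∑ j, if j ≠ i then f j else 0 := by
  rw [← Finset.filter_ne', Finset.sum_filter]

lemma sym_L (hDD : IsDD DD) (κ α : ℂ) {p : Rx n} (hp : Sym p) : Sym (L DD κ α p) := by
  intro σ
  have hpd : ∀ i, rename σ (pderiv i p) = pderiv (σ i) p := by
    intro i
    rw [← pderiv_rename σ.injective, hp σ]
  have hpd2 : ∀ i, rename σ (pderiv i (pderiv i p)) = pderiv (σ i) (pderiv (σ i) p) := by
    intro i
    rw [← pderiv_rename σ.injective, hpd]
  unfold L
  rw [map_add, map_sum, map_smul, map_sum]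
  congr 1
  · refine Eq.trans ?_ (Equiv.sum_comp σ _)
    refine Finset.sum_congr rfl fun i _ => ?_
    rw [map_add, map_mul, map_smul, rename_X, hpd, hpd2]
  · congr 1
    refine Eq.trans ?_ (Equiv.sum_comp σ _)
    refine Finset.sum_congr rfl fun i _ => ?_
    rw [map_sum, sum_erase_eq, sum_erase_eq]
    refine Eq.trans ?_ (Equiv.sum_comp σ _)
    refine Finset.sum_congr rfl fun j _ => ?_
    by_cases h : j = i
    · subst h; simp
    · have h' : σ j ≠ σ i := fun h' => h (σ.injective h')
      rw [if_pos h, if_pos h', rename_DD hDD σ (Ne.symm h), map_mul, rename_X, hpd]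

lemma homog_DD (hDD : IsDD DD) {i j : Fin n} (h : i ≠ j) {q : Rx n} {d : ℕ}
    (hq : q.IsHomogeneous (d + 1)) : (DD i j q).IsHomogeneous d := by
  set r := DD i j q with hr
  have h1 : (X i - X j) * r = q - rename (Equiv.swap i j) q := hDD i j h q
  have h2 : (q - rename (Equiv.swap i j) q).IsHomogeneous (d + 1) :=
    hq.sub hq.rename_isHomogeneous
  have hX : (X i - X j : Rx n).IsHomogeneous 1 := (isHomogeneous_X ℂ i).sub (isHomogeneous_X ℂ j)
  have h3 : homogeneousComponent (d + 1) ((X i - X j) * r) =
      (X i - X j) * homogeneousComponent d r := by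
    conv_lhs => rw [← sum_homogeneousComponent (φ := r), Finset.mul_sum, map_sum]
    have h4 : ∀ e, homogeneousComponent (d + 1) ((X i - X j) * homogeneousComponent e r) =
        if e = d then (X i - X j) * homogeneousComponent d r else 0 := by
      intro e
      have h5 : ((X i - X j) * homogeneousComponent e r).IsHomogeneous (1 + e) :=
        hX.mul (homogeneousComponent_isHomogeneous e r)
      rw [homogeneousComponent_of_mem (n := 1 + e) ((mem_homogeneousSubmodule _ _).mpr h5)]
      by_cases hed : e = d
      · subst hed; rw [if_pos (add_comm _ _), if_pos rfl]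
      · rw [if_neg (by omega), if_neg hed]
    simp only [h4]
    rw [Finset.sum_ite_eq']
    split_ifs with h6
    · rfl
    · rw [homogeneousComponent_eq_zero, mul_zero]
      have := Finset.mem_range.not.mp h6
      omega
  have h7 : (X i - X j) * r = (X i - X j) * homogeneousComponent d r := by
    rw [← h3, h1, homogeneousComponent_of_mem (n := d + 1)
      ((mem_homogeneousSubmodule _ _).mpr h2), if_pos rfl]
  rw [mul_left_cancel₀ (X_sub_ne h) h7]
  exact homogeneousComponent_isHomogeneous d r

end

theorem t_L : StmL := by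
  intro n DD hDD κ α p hp
  refine ⟨sym_L hDD κ α hp, ?_, ?_⟩
  · intro d hd
    have h1 : ∀ i, (pderiv i p).IsHomogeneous d := fun i => hd.pderiv
    have h2 : ∀ i, (X i * pderiv i (pderiv i p)).IsHomogeneous d := by
      intro i
      rcases Nat.eq_zero_or_pos d with h0 | h0
      · subst h0
        have h3 := h1 i
        rw [← totalDegree_zero_iff_isHomogeneous, totalDegree_eq_zero_iff_eq_C] at h3
        rw [h3, pderiv_C, mul_zero]
        exact isHomogeneous_zero _ _ _
      · have h3 := (isHomogeneous_X ℂ i).mul ((h1 i).pderiv (i := i))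
        have h4 : 1 + (d - 1) = d := by omega
        rwa [h4] at h3
    unfold L
    refine IsHomogeneous.add (IsHomogeneous.sum _ _ _ fun i _ => ?_) ?_
    · refine (h2 i).add ?_
      rw [smul_eq_C_mul]
      have := (isHomogeneous_C (Fin n) (α + 1)).mul (h1 i)
      rwa [zero_add] at this
    · rw [smul_eq_C_mul]
      have h5 : (∑ i, ∑ j ∈ Finset.univ.erase i, DD i j (X i * pderiv i p)).IsHomogeneous d := by
        refine IsHomogeneous.sum _ _ _ fun i _ => IsHomogeneous.sum _ _ _ fun j hj => ?_
        have hji : i ≠ j := (Finset.ne_of_mem_erase hj).symm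
        refine homog_DD hDD hji ?_
        have := (isHomogeneous_X ℂ i).mul (h1 i)
        rwa [add_comm] at this
      have := (isHomogeneous_C (Fin n) κ).mul h5
      rwa [zero_add] at this
  · intro h0
    rw [← totalDegree_zero_iff_isHomogeneous, totalDegree_eq_zero_iff_eq_C] at h0
    unfold L
    rw [h0]
    simp

/-! ### The derivatives of `Δ` -/

lemma leibniz_prod {n : ℕ} {ι : Type} [DecidableEq ι] (i : Fin n) (S : Finset ι) (f : ι → Rx n) :
    pderiv i (∏ s ∈ S, f s) = ∑ s ∈ S, (∏ t ∈ S.erase s, f t) * pderiv i (f s) := by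
  induction S using Finset.induction_on with
  | empty => simp
  | insert a S ha ih =>
    rw [Finset.prod_insert ha, Finset.sum_insert ha, Finset.erase_insert ha, pderiv_mul, ih,
      Finset.mul_sum]
    have : ∀ s ∈ S, (∏ t ∈ (insert a S).erase s, f t) * pderiv i (f s) =
        f a * ((∏ t ∈ S.erase s, f t) * pderiv i (f s)) := by
      intro s hs
      have hne : s ≠ a := fun h => ha (h ▸ hs)
      rw [Finset.erase_insert_of_ne (Ne.symm hne), Finset.prod_insert
        (fun h => ha (Finset.mem_of_mem_erase h)), mul_assoc]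
    rw [Finset.sum_congr rfl this]
    ring

/-- the set of pairs -/
def prs (n : ℕ) : Finset (Σ _ : Fin n, Fin n) := Finset.univ.sigma fun i => Finset.Ioi i

lemma Dl_eq (n : ℕ) : Dl n = ∏ s ∈ prs n, (X s.2 - X s.1 : Rx n) := by
  unfold Dl prs
  rw [Finset.prod_sigma]

lemma exists_E (n : ℕ) : ∃ E : Fin n → Fin n → Rx n,
    (∀ i j, i ≠ j → (X i - X j) * E i j = Dl n) ∧
    ∀ i, pderiv i (Dl n) = ∑ j ∈ Finset.univ.erase i, E i j := by
  obtain ⟨Q, hQd⟩ : ∃ Q : Fin n → Fin n → Rx n, ∀ a b,
      ∏ t ∈ (prs n).erase ⟨a, b⟩, (X t.2 - X t.1 : Rx n) = Q a b := ⟨_, fun _ _ => rfl⟩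
  have hQ : ∀ a b, a < b → (X b - X a) * Q a b = Dl n := by
    intro a b hab
    have hmem : (⟨a, b⟩ : Σ _ : Fin n, Fin n) ∈ prs n := by
      unfold prs
      rw [Finset.mem_sigma]
      exact ⟨Finset.mem_univ _, Finset.mem_Ioi.mpr hab⟩
    have h9 := Finset.mul_prod_erase (prs n) (fun t => (X t.2 - X t.1 : Rx n)) hmem
    dsimp only at h9
    rw [Dl_eq, ← h9, hQd]
  refine ⟨fun i j => if j < i then Q j i else - Q i j, ?_, ?_⟩
  · intro i j hij
    rcases lt_or_gt_of_ne hij with h | h
    · show (X i - X j) * (if j < i then Q j i else - Q i j) = Dl n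
      rw [if_neg (not_lt.mpr h.le), ← hQ i j h]
      ring
    · show (X i - X j) * (if j < i then Q j i else - Q i j) = Dl n
      rw [if_pos h, ← hQ j i h]
  · intro i
    have h0 : pderiv i (Dl n) = ∑ a, ∑ b ∈ Finset.Ioi a, Q a b * pderiv i (X b - X a : Rx n) := by
      rw [Dl_eq, leibniz_prod]
      simp only [← hQd]
      unfold prs
      rw [Finset.sum_sigma]
    rw [h0]
    have h1 : ∀ a : Fin n, ∑ b ∈ Finset.Ioi a, Q a b * pderiv i (X b - X a : Rx n) =
        (if a < i then Q a i else 0) + (if a = i then ∑ b ∈ Finset.Ioi i, - Q i b else 0) := by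
      intro a
      have h2 : ∀ b ∈ Finset.Ioi a, Q a b * pderiv i (X b - X a : Rx n) =
          (if b = i then Q a i else 0) + (if a = i then - Q i b else 0) := by
        intro b hb
        rw [map_sub, pderiv_X, pderiv_X]
        have hab : a < b := Finset.mem_Ioi.mp hb
        by_cases hbi : b = i
        · subst hbi
          have : a ≠ b := hab.ne
          simp [this]
        · by_cases hai : a = i
          · subst hai
            simp [hbi]
          · simp [hbi, hai]
      rw [Finset.sum_congr rfl h2, Finset.sum_add_distrib, Finset.sum_ite_eq']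
      congr 1
      · simp [Finset.mem_Ioi]
      · split_ifs with hai
        · subst hai; rfl
        · simp
    rw [Finset.sum_congr rfl (fun a _ => h1 a), Finset.sum_add_distrib]
    rw [Finset.sum_ite_eq' Finset.univ i, if_pos (Finset.mem_univ i)]
    rw [sum_erase_eq]
    have h3 : ∑ b ∈ Finset.Ioi i, - Q i b = ∑ b, if i < b then - Q i b else 0 := by
      rw [← Finset.sum_filter]
      congr 1
      ext b
      simp
    rw [h3, ← Finset.sum_add_distrib]
    refine Finset.sum_congr rfl fun j _ => ?_
    rcases lt_trichotomy j i with h | h | h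
    · simp [h, h.ne, not_lt.mpr h.le]
    · subst h; simp
    · simp [h, h.ne', not_lt.mpr h.le]

theorem t_Dl : StmDl := by
  intro n DD hDD p hp
  obtain ⟨E, hE, hder⟩ := exists_E n
  have hanti : ∀ i j, i ≠ j → E j i = - E i j := by
    intro i j h
    apply mul_left_cancel₀ (X_sub_ne h.symm)
    rw [hE j i h.symm, ← hE i j h]
    ring
  have h1 : ∑ i, X i * pderiv i p * pderiv i (Dl n) =
      ∑ i, ∑ j, if j ≠ i then X i * pderiv i p * E i j else 0 := by
    refine Finset.sum_congr rfl fun i _ => ?_
    rw [hder, Finset.mul_sum, sum_erase_eq]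
  have h2 : ∑ i, X i * pderiv i p * pderiv i (Dl n) =
      ∑ i, ∑ j, if j ≠ i then - (X j * pderiv j p * E i j) else 0 := by
    rw [h1, Finset.sum_comm]
    refine Finset.sum_congr rfl fun i _ => Finset.sum_congr rfl fun j _ => ?_
    by_cases h : j = i
    · subst h; simp
    · rw [if_pos h, if_pos (Ne.symm h), hanti i j (Ne.symm h)]
      ring
  rw [two_mul]
  nth_rewrite 1 [h1]
  rw [h2, ← Finset.sum_add_distrib, Finset.mul_sum]
  refine Finset.sum_congr rfl fun i _ => ?_
  rw [← Finset.sum_add_distrib, sum_erase_eq, Finset.mul_sum]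
  refine Finset.sum_congr rfl fun j _ => ?_
  by_cases h : j = i
  · subst h; simp
  · rw [if_pos h, if_pos h, if_pos h]
    have hij : i ≠ j := Ne.symm h
    have h3 := hDD i j hij (X i * pderiv i p)
    have h4 : rename (Equiv.swap i j) (X i * pderiv i p) = X j * pderiv j p := by
      rw [map_mul, rename_X, ← pderiv_rename (Equiv.swap i j).injective, hp,
        Equiv.swap_apply_left]
    rw [h4] at h3
    rw [← hE i j hij]
    calc X i * pderiv i p * E i j + -(X j * pderiv j p * E i j) =
        (X i * pderiv i p - X j * pderiv j p) * E i j := by ring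
      _ = _ := by rw [← h3]; ring

end Pool.Agent.K3h15.DM
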