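import Pool.Agent.K3h15.DM.Base

/-! # The discriminant as a polynomial in the coefficients exists and is unique -/

set_option autoImplicit false

namespace Pool.Agent.K3h15.DM

open MvPolynomial

theorem sym_Dl_sq (n : ℕ) : Sym (Dl n ^ 2) := by
  intro σ
  have h1 : Dl n = (Matrix.vandermonde (fun i : Fin n => (X i : Rx n))).det :=
    (Matrix.det_vandermonde _).symm
  have h2 : rename σ (Dl n) = (Matrix.vandermonde (fun i : Fin n => (X (σ i) : Rx n))).det := by
    rw [Matrix.det_vandermonde, Dl, map_prod]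
    refine Finset.prod_congr rfl fun i _ => ?_
    rw [map_prod]
    refine Finset.prod_congr rfl fun j _ => ?_
    simp
  have h3 : (Matrix.vandermonde (fun i : Fin n => (X (σ i) : Rx n))) =
      (Matrix.vandermonde (fun i : Fin n => (X i : Rx n))).submatrix σ id := by
    ext i j
    simp [Matrix.vandermonde]
  rw [map_pow, h2, h3, Matrix.det_permute, ← h1, mul_pow]
  have h4 : ((Equiv.Perm.sign σ : ℤ) : Rx n) ^ 2 = 1 := by
    rcases Int.units_eq_one_or (Equiv.Perm.sign σ) with h | h <;> simp [h]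
  rw [h4, one_mul]

theorem coeff_prod (n : ℕ) (x : Fin n → ℂ) (j : Fin n) :
    (∏ i, (Polynomial.X - Polynomial.C (x i))).coeff (j : ℕ) =
      (-1) ^ (n - j) * eval x (esymm (Fin n) ℂ (n - j)) := by
  have h1 : (∏ i, (Polynomial.X - Polynomial.C (x i))) =
      (∏ i : Fin n, (Polynomial.X + Polynomial.C (X i : Rx n))).map (eval fun i => -x i) := by
    rw [Polynomial.map_prod]
    refine Finset.prod_congr rfl fun i _ => ?_
    simp [sub_eq_add_neg]
  rw [h1, Polynomial.coeff_map, MvPolynomial.prod_X_add_C_coeff ℂ (Fin n) (j : ℕ)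
    (by simp), Fintype.card_fin, MvPolynomial.esymm, map_sum, map_sum,
    Finset.mul_sum]
  refine Finset.sum_congr rfl fun t ht => ?_
  rw [map_prod, map_prod]
  simp only [eval_X]
  rw [Finset.mem_powersetCard] at ht
  rw [← ht.2, Finset.prod_neg]

theorem disc_exists (n : ℕ) : ∃ F : MvPolynomial (Fin n) ℂ, IsDisc n F := by
  obtain ⟨q, hq⟩ := esymmAlgHom_surjective (σ := Fin n) (R := ℂ) (n := n) (by simp)
    ⟨Dl n ^ 2, sym_Dl_sq n⟩
  have hq' : aeval (fun i : Fin n => esymm (Fin n) ℂ (i + 1)) q = Dl n ^ 2 := by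
    rw [← esymmAlgHom_apply, hq]
  refine ⟨aeval (fun i : Fin n => (C ((-1) ^ ((i : ℕ) + 1)) * X (Fin.rev i) :
    MvPolynomial (Fin n) ℂ)) q, fun x => ?_⟩
  have h1 : ((aeval (fun j : Fin n => (∏ i, (Polynomial.X - Polynomial.C (x i))).coeff j) :
      MvPolynomial (Fin n) ℂ →ₐ[ℂ] ℂ).comp (aeval (fun i : Fin n =>
      (C ((-1) ^ ((i : ℕ) + 1)) * X (Fin.rev i) : MvPolynomial (Fin n) ℂ)))) =
      (aeval x : Rx n →ₐ[ℂ] ℂ).comp (aeval (fun i : Fin n => esymm (Fin n) ℂ (i + 1))) := by
    apply MvPolynomial.algHom_ext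
    intro i
    rw [AlgHom.comp_apply, AlgHom.comp_apply, aeval_X, aeval_X, map_mul, aeval_X, coeff_prod,
      aeval_C, aeval_eq]
    have h2 : n - ((Fin.rev i : Fin n) : ℕ) = (i : ℕ) + 1 := by
      rw [Fin.val_rev]
      omega
    rw [h2]
    have h3 : ((-1 : ℂ) ^ ((i : ℕ) + 1)) * (-1) ^ ((i : ℕ) + 1) = 1 := by
      rw [← mul_pow]
      simp
    rw [← mul_assoc]
    change (-1 : ℂ) ^ ((i : ℕ) + 1) * (-1) ^ ((i : ℕ) + 1) * _ = _
    rw [h3, one_mul]
  have h4 := congrArg (fun t => t q) h1
  simp only [AlgHom.comp_apply] at h4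
  rw [hq'] at h4
  rw [← aeval_eq, h4, aeval_eq, map_pow, Dl, map_prod, ← Finset.prod_pow]
  refine Finset.prod_congr rfl fun i _ => ?_
  rw [map_prod, ← Finset.prod_pow]
  refine Finset.prod_congr rfl fun j _ => ?_
  simp

theorem coeffs_surj (n : ℕ) (a : Fin n → ℂ) : ∃ x : Fin n → ℂ,
    (fun j : Fin n => (∏ i, (Polynomial.X - Polynomial.C (x i))).coeff j) = a := by
  set h : Polynomial ℂ := Polynomial.X ^ n + ∑ j : Fin n, Polynomial.C (a j) *
    Polynomial.X ^ (j : ℕ) with hh
  have hdeg : (∑ j : Fin n, Polynomial.C (a j) * Polynomial.X ^ (j : ℕ)).degree <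
      (n : WithBot ℕ) := Polynomial.degree_sum_fin_lt a
  have hmon : h.Monic := Polynomial.monic_X_pow_add hdeg
  have hnat : h.natDegree = n := by
    apply Polynomial.natDegree_eq_of_degree_eq_some
    rw [hh, Polynomial.degree_add_eq_left_of_degree_lt]
    · exact Polynomial.degree_X_pow n
    · rw [Polynomial.degree_X_pow]
      exact hdeg
  have hsp := IsAlgClosed.splits h
  have hcard : h.roots.card = n := by
    rw [← hnat]
    exact (Polynomial.splits_iff_card_roots.mp hsp)
  have hprod : (h.roots.map fun r => Polynomial.X - Polynomial.C r).prod = h := by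
    have := Polynomial.prod_multiset_X_sub_C_of_monic_of_roots_card_eq hmon
      (by rw [hcard, hnat])
    exact this
  refine ⟨fun i => h.roots.toList.get (i.cast (by rw [Multiset.length_toList, hcard])), ?_⟩
  have h2 : (∏ i : Fin n, (Polynomial.X - Polynomial.C
      (h.roots.toList.get (i.cast (by rw [Multiset.length_toList, hcard]))))) = h := by
    have h3 : n = h.roots.toList.length := by rw [Multiset.length_toList, hcard]
    have h6 : (∏ i : Fin n, (Polynomial.X - Polynomial.C
        (h.roots.toList.get (i.cast (by rw [Multiset.length_toList, hcard]))))) =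
        ∏ i : Fin h.roots.toList.length, (Polynomial.X - Polynomial.C (h.roots.toList.get i)) :=
      Fintype.prod_equiv (finCongr h3) _ _ (fun i => rfl)
    rw [h6]
    have h4 := List.prod_ofFn (f := fun i : Fin h.roots.toList.length =>
      Polynomial.X - Polynomial.C (h.roots.toList.get i))
    rw [← h4]
    have h5 : (List.ofFn fun i : Fin h.roots.toList.length =>
        Polynomial.X - Polynomial.C (h.roots.toList.get i)) =
        h.roots.toList.map (fun r => Polynomial.X - Polynomial.C r) := by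
      rw [← List.ofFn_get (h.roots.toList.map (fun r => Polynomial.X - Polynomial.C r))]
      apply List.ext_get
      · simp
      · intro k h1 h2
        simp
    rw [h5, ← Multiset.prod_coe, ← Multiset.map_coe, Multiset.coe_toList, hprod]
  rw [h2]
  funext j
  rw [hh, Polynomial.coeff_add, Polynomial.coeff_X_pow, if_neg j.2.ne, zero_add,
    Polynomial.finsetSum_coeff, Finset.sum_eq_single j]
  · simp
  · intro k _ hk
    rw [Polynomial.coeff_C_mul, Polynomial.coeff_X_pow, if_neg, mul_zero]
    exact fun h => hk (Fin.ext h.symm)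
  · intro h
    exact absurd (Finset.mem_univ j) h

theorem disc_unique (n : ℕ) : ∃! F : MvPolynomial (Fin n) ℂ, IsDisc n F := by
  obtain ⟨F, hF⟩ := disc_exists n
  refine ⟨F, hF, fun F' hF' => ?_⟩
  apply MvPolynomial.funext
  intro a
  obtain ⟨x, rfl⟩ := coeffs_surj n a
  rw [hF x, hF' x]

end Pool.Agent.K3h15.DM
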