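import Pool.Agent.K3h15.DM.Stm
import Mathlib.RingTheory.MvPolynomial.EulerIdentity

/-!
Brick EXP (helper57): the values of the functional on symmetric polynomials.
-/

set_option autoImplicit false

namespace Pool.Agent.K3h15.DM

open MvPolynomial

namespace ExpAux

variable {n : ℕ}

/-- `X b - X a` divides `Dl`, for `a < b` -/
theorem dvd_Dl {a b : Fin n} (h : a < b) : (X b - X a : Rx n) ∣ Dl n := by
  unfold Dl
  refine dvd_trans ?_ (Finset.dvd_prod_of_mem _ (Finset.mem_univ a))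
  exact Finset.dvd_prod_of_mem (fun j => (X j - X a : Rx n)) (Finset.mem_Ioi.mpr h)

theorem X_mul_pderiv_Yp (i : Fin n) : (X i : Rx n) * pderiv i (Yp n) = Yp n := by
  classical
  have e : Yp n = X i * ∏ j ∈ Finset.univ.erase i, X j := by
    unfold Yp
    exact (Finset.mul_prod_erase Finset.univ (fun j => (X j : Rx n)) (Finset.mem_univ i)).symm
  have h0 : pderiv i (∏ j ∈ Finset.univ.erase i, (X j : Rx n)) = 0 := by
    have h : ∀ s : Finset (Fin n), i ∉ s → pderiv i (∏ j ∈ s, (X j : Rx n)) = 0 := by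
      intro s
      induction s using Finset.induction_on with
      | empty => intro _; simp
      | insert a s ha ih =>
        intro hi
        have hia : a ≠ i := fun h => hi (h ▸ Finset.mem_insert_self a s)
        have his : i ∉ s := fun h => hi (Finset.mem_insert_of_mem h)
        rw [Finset.prod_insert ha, Derivation.leibniz, ih his, pderiv_X_of_ne hia]
        simp
    exact h _ (Finset.notMem_erase i _)
  rw [e, Derivation.leibniz, h0, pderiv_X_self]
  simp

theorem X_mul_pderiv_Yp_pow (i : Fin n) (v : ℕ) :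
    (X i : Rx n) * pderiv i (Yp n ^ v) = (v : Rx n) * Yp n ^ v := by
  rcases v with _ | v
  · simp
  · rw [Derivation.leibniz_pow, Nat.add_sub_cancel]
    simp only [nsmul_eq_mul, smul_eq_mul]
    rw [show (X i : Rx n) * (((v + 1 : ℕ) : Rx n) * (Yp n ^ v * pderiv i (Yp n))) =
      ((v + 1 : ℕ) : Rx n) * (Yp n ^ v * (X i * pderiv i (Yp n))) by ring, X_mul_pderiv_Yp,
      pow_succ]

/-- the sum of the derivatives -/
theorem sum_pderiv (hD : StmDl) (DD : Fin n → Fin n → (Rx n →ₗ[ℂ] Rx n)) (hDD : IsDD DD)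
    (k v : ℕ) (p : Rx n) (hp : Sym p) :
    ∑ i, pderiv i (X i * pderiv i p * (Dl n ^ (2 * k + 1) * Yp n ^ v)) =
      Dl n ^ (2 * k + 1) * Yp n ^ v * L DD ((k : ℂ) + 1 / 2) v p := by
  have h1 : ∀ i : Fin n, pderiv i (X i * pderiv i p * (Dl n ^ (2 * k + 1) * Yp n ^ v)) =
      Dl n ^ (2 * k + 1) * Yp n ^ v * (X i * pderiv i (pderiv i p) + pderiv i p) +
      (v : Rx n) * (Dl n ^ (2 * k + 1) * Yp n ^ v) * pderiv i p +
      ((2 * k + 1 : ℕ) : Rx n) * Dl n ^ (2 * k) * Yp n ^ v *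
        (X i * pderiv i p * pderiv i (Dl n)) := by
    intro i
    have hY := X_mul_pderiv_Yp_pow i v
    rw [Derivation.leibniz, Derivation.leibniz (pderiv i) (X i), Derivation.leibniz (pderiv i)
      (Dl n ^ (2 * k + 1)), Derivation.leibniz_pow (pderiv i) (Dl n), pderiv_X_self,
      Nat.add_sub_cancel]
    simp only [nsmul_eq_mul, smul_eq_mul]
    linear_combination (pderiv i p * Dl n ^ (2 * k + 1)) * hY
  rw [Finset.sum_congr rfl fun i _ => h1 i, Finset.sum_add_distrib, Finset.sum_add_distrib,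
    ← Finset.mul_sum, ← Finset.mul_sum, ← Finset.mul_sum]
  have h2 := hD n DD hDD p hp
  set D2 := ∑ i, ∑ j ∈ Finset.univ.erase i, DD i j (X i * pderiv i p) with hD2
  have h3 : ∑ i, X i * pderiv i p * pderiv i (Dl n) = C (1 / 2 : ℂ) * (Dl n * D2) := by
    have e : (C (1 / 2 : ℂ) : Rx n) * 2 = 1 := by
      have : (2 : Rx n) = C 2 := (map_ofNat C 2).symm
      rw [this, ← C_mul]
      norm_num
    calc ∑ i, X i * pderiv i p * pderiv i (Dl n)
        = C (1 / 2 : ℂ) * 2 * ∑ i, X i * pderiv i p * pderiv i (Dl n) := by rw [e, one_mul]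
      _ = C (1 / 2 : ℂ) * (2 * ∑ i, X i * pderiv i p * pderiv i (Dl n)) := by ring
      _ = _ := by rw [h2]
  rw [h3]
  unfold L
  rw [← hD2, Finset.sum_add_distrib, Finset.sum_add_distrib, ← Finset.smul_sum,
    smul_eq_C_mul, smul_eq_C_mul]
  have e1 : (C ((k : ℂ) + 1 / 2) : Rx n) = (k : Rx n) + C (1 / 2 : ℂ) := by
    rw [C_add]; simp
  have e2 : (C ((v : ℂ) + 1) : Rx n) = (v : Rx n) + 1 := by
    rw [C_add]; simp
  have e3 : (C (1 / 2 : ℂ) : Rx n) * 2 = 1 := by
    have : (2 : Rx n) = C 2 := (map_ofNat C 2).symm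
    rw [this, ← C_mul]
    norm_num
  rw [e1, e2]
  push_cast
  linear_combination (k : Rx n) * Dl n ^ (2 * k + 1) * Yp n ^ v * D2 * e3

theorem step (hD : StmDl) (DD : Fin n → Fin n → (Rx n →ₗ[ℂ] Rx n)) (hDD : IsDD DD)
    (l : ℝ) (G : Rx n →ₗ[ℂ] ℂ) (hG : IsFun l G) (k v : ℕ) (p : Rx n) (hp : Sym p) :
    G (Dl n ^ (2 * k + 1) * Yp n ^ v * ∑ i, X i * pderiv i p) =
      l * G (Dl n ^ (2 * k + 1) * Yp n ^ v * L DD ((k : ℂ) + 1 / 2) v p) := by
  rw [← sum_pderiv hD DD hDD k v p hp, map_sum, Finset.mul_sum, Finset.mul_sum, map_sum]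
  refine Finset.sum_congr rfl fun i _ => ?_
  have hdvd : ∀ a b : Fin n, a < b →
      (X b - X a : Rx n) ∣ X i * pderiv i p * (Dl n ^ (2 * k + 1) * Yp n ^ v) := by
    intro a b hab
    refine Dvd.dvd.mul_left (Dvd.dvd.mul_right ?_ _) _
    exact (dvd_Dl hab).trans (dvd_pow_self _ (by omega))
  have h := hG.1 i (X i * pderiv i p * (Dl n ^ (2 * k + 1) * Yp n ^ v))
    (fun a ha => hdvd a i (by rw [Fin.lt_def]; omega))
    (fun _ => ⟨pderiv i p * (Dl n ^ (2 * k + 1) * Yp n ^ v), by ring⟩)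
    (fun a ha => hdvd i a (by rw [Fin.lt_def]; omega))
  rw [h]
  congr 1
  ring

/-- the operator `L` as a linear map -/
noncomputable def Lm (DD : Fin n → Fin n → (Rx n →ₗ[ℂ] Rx n)) (κ α : ℂ) : Rx n →ₗ[ℂ] Rx n :=
  ∑ i, (LinearMap.mulLeft ℂ (X i) ∘ₗ (pderiv i).toLinearMap ∘ₗ (pderiv i).toLinearMap +
      (α + 1) • (pderiv i).toLinearMap) +
    κ • ∑ i, ∑ j ∈ Finset.univ.erase i,
      DD i j ∘ₗ LinearMap.mulLeft ℂ (X i) ∘ₗ (pderiv i).toLinearMap

theorem Lm_apply (DD : Fin n → Fin n → (Rx n →ₗ[ℂ] Rx n)) (κ α : ℂ) (p : Rx n) :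
    Lm DD κ α p = L DD κ α p := by
  unfold Lm L
  simp [LinearMap.sum_apply]

theorem iter_eq (DD : Fin n → Fin n → (Rx n →ₗ[ℂ] Rx n)) (κ α : ℂ) (e : ℕ) (p : Rx n) :
    (L DD κ α)^[e] p = (Lm DD κ α ^ e) p := by
  induction e generalizing p with
  | zero => simp
  | succ e ih => rw [Function.iterate_succ_apply, ih, pow_succ, Module.End.mul_apply, Lm_apply]

theorem sym_iter (hL : StmL) (DD : Fin n → Fin n → (Rx n →ₗ[ℂ] Rx n)) (hDD : IsDD DD) (κ α : ℂ)
    (e : ℕ) : ∀ (p : Rx n), Sym p → Sym ((L DD κ α)^[e] p) := by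
  induction e with
  | zero => intro p hp; exact hp
  | succ e ih =>
    intro p hp
    rw [Function.iterate_succ_apply]
    exact ih _ (hL n DD hDD κ α p hp).1

theorem hom_iter (hL : StmL) (DD : Fin n → Fin n → (Rx n →ₗ[ℂ] Rx n)) (hDD : IsDD DD) (κ α : ℂ)
    (e : ℕ) : ∀ (d : ℕ) (p : Rx n), Sym p → p.IsHomogeneous (d + e) →
      ((L DD κ α)^[e] p).IsHomogeneous d := by
  induction e with
  | zero => intro d p _ hp; exact hp
  | succ e ih =>
    intro d p hs hp
    rw [Function.iterate_succ_apply]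
    exact ih d _ (hL n DD hDD κ α p hs).1 ((hL n DD hDD κ α p hs).2.1 (d + e) hp)

theorem iter_zero (DD : Fin n → Fin n → (Rx n →ₗ[ℂ] Rx n)) (κ α : ℂ) (e : ℕ) :
    (L DD κ α)^[e] 0 = 0 := by
  rw [iter_eq, map_zero]

/-- constant coefficient of `L ^ e p` for homogeneous `p` of degree `d ≠ e` -/
theorem cc_iter (hL : StmL) (DD : Fin n → Fin n → (Rx n →ₗ[ℂ] Rx n)) (hDD : IsDD DD) (κ α : ℂ)
    (e d : ℕ) (hed : e ≠ d) (p : Rx n) (hs : Sym p) (hp : p.IsHomogeneous d) :
    constantCoeff ((L DD κ α)^[e] p) = 0 := by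
  rcases lt_or_gt_of_ne hed with h | h
  · obtain ⟨f, rfl⟩ := Nat.exists_eq_add_of_lt h
    have h1 : ((L DD κ α)^[e] p).IsHomogeneous (f + 1) :=
      hom_iter hL DD hDD κ α e (f + 1) p hs (by
        have : f + 1 + e = e + f + 1 := by ring
        rw [this]; exact hp)
    rw [constantCoeff_eq]
    exact h1.coeff_eq_zero (by simp)
  · obtain ⟨f, rfl⟩ := Nat.exists_eq_add_of_lt h
    have h1 : ((L DD κ α)^[d] p).IsHomogeneous 0 :=
      hom_iter hL DD hDD κ α d 0 p hs (by rw [zero_add]; exact hp)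
    have h2 : L DD κ α ((L DD κ α)^[d] p) = 0 :=
      (hL n DD hDD κ α _ (sym_iter hL DD hDD κ α d p hs)).2.2 h1
    have h3 : (L DD κ α)^[d + f + 1] p = 0 := by
      have e1 : d + f + 1 = f + (1 + d) := by ring
      rw [e1, Function.iterate_add_apply, Function.iterate_add_apply, Function.iterate_one, h2,
        iter_zero]
    rw [h3, map_zero]

theorem hom_case (hL : StmL) (hD : StmDl) (DD : Fin n → Fin n → (Rx n →ₗ[ℂ] Rx n))
    (hDD : IsDD DD) (l : ℝ) (G : Rx n →ₗ[ℂ] ℂ) (hG : IsFun l G) (k v : ℕ) (d : ℕ) :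
    ∀ (p : Rx n), Sym p → p.IsHomogeneous d →
      G (Dl n ^ (2 * k + 1) * Yp n ^ v * p) =
        G (Dl n ^ (2 * k + 1) * Yp n ^ v) * ((l : ℂ) ^ d / (d.factorial : ℂ) *
          constantCoeff ((L DD ((k : ℂ) + 1 / 2) v)^[d] p)) := by
  induction d with
  | zero =>
    intro p _ hp
    have h1 : p = C (coeff 0 p) := by
      have h := homogeneousComponent_eq_self hp
      rw [homogeneousComponent_zero] at h
      exact h.symm
    have h2 : Dl n ^ (2 * k + 1) * Yp n ^ v * p =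
        coeff 0 p • (Dl n ^ (2 * k + 1) * Yp n ^ v) := by
      rw [smul_eq_C_mul, ← h1, mul_comm]
    rw [h2, map_smul]
    simp [constantCoeff_eq, mul_comm]
  | succ d ih =>
    intro p hs hp
    have h1 := step hD DD hDD l G hG k v p hs
    rw [hp.sum_X_mul_pderiv, ih _ (hL n DD hDD _ _ p hs).1 ((hL n DD hDD _ _ p hs).2.1 d hp),
      ← Function.iterate_succ_apply] at h1
    have h2 : Dl n ^ (2 * k + 1) * Yp n ^ v * ((d + 1) • p) =
        ((d : ℂ) + 1) • (Dl n ^ (2 * k + 1) * Yp n ^ v * p) := by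
      rw [nsmul_eq_mul, smul_eq_C_mul, C_add]
      push_cast
      simp only [map_natCast, C_1]
      ring
    rw [h2, map_smul, smul_eq_mul] at h1
    have hd : ((d : ℂ) + 1) ≠ 0 := by exact_mod_cast Nat.succ_ne_zero d
    have hf : ((d.factorial : ℕ) : ℂ) ≠ 0 := by exact_mod_cast Nat.factorial_ne_zero d
    apply mul_left_cancel₀ hd
    rw [h1, Nat.factorial_succ]
    push_cast
    field_simp
    try ring

end ExpAux

open ExpAux in
theorem t_Exp (hL : StmL) (hD : StmDl) : StmExp := by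
  intro n DD hDD l G _ hG k v N p hs hN
  have hdec : p = ∑ d ∈ Finset.range (N + 1), homogeneousComponent d p := by
    conv_lhs => rw [← sum_homogeneousComponent p]
    refine Finset.sum_subset (Finset.range_mono (by omega)) fun d _ hd => ?_
    exact homogeneousComponent_eq_zero d p (by simpa [Nat.lt_succ_iff] using hd)
  have hsd : ∀ d, Sym (homogeneousComponent d p) := by
    intro d σ
    rw [rename_homogeneousComponent, hs σ]
  have hhd : ∀ d, (homogeneousComponent d p).IsHomogeneous d := fun d =>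
    homogeneousComponent_isHomogeneous d p
  have h1 : G (Dl n ^ (2 * k + 1) * Yp n ^ v * p) =
      ∑ d ∈ Finset.range (N + 1), G (Dl n ^ (2 * k + 1) * Yp n ^ v *
        homogeneousComponent d p) := by
    conv_lhs => rw [hdec]
    rw [Finset.mul_sum, map_sum]
  have h2 : ∀ d ∈ Finset.range (N + 1),
      constantCoeff ((L DD ((k : ℂ) + 1 / 2) v)^[d] p) =
      constantCoeff ((L DD ((k : ℂ) + 1 / 2) v)^[d] (homogeneousComponent d p)) := by
    intro d hd
    rw [iter_eq]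
    conv_lhs => rw [hdec]
    rw [map_sum, map_sum, Finset.sum_eq_single d]
    · rw [iter_eq]
    · intro e _ hed
      rw [← iter_eq]
      exact cc_iter hL DD hDD _ _ d e (Ne.symm hed) _ (hsd e) (hhd e)
    · intro h; exact absurd hd h
  rw [h1, Ex, Finset.mul_sum]
  refine Finset.sum_congr rfl fun d hd => ?_
  rw [h2 d hd]
  exact hom_case hL hD DD hDD l G hG k v d _ (hsd d) (hhd d)

end Pool.Agent.K3h15.DM
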