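import Pool.Agent.K3h15.DM.Stm

/-!
# Brick FUN: the functional `G` (by helper70)

In the coordinates `y_0, ..., y_(n-1)`, `x_i = y_0 + ... + y_i`, the functional is the integral against
`exp (- ∑ c_k y_k)`, `c_k = (n - k) / l`, over the positive orthant.
-/

set_option autoImplicit false

namespace Pool.Agent.K3h15.DM

open MvPolynomial

namespace Fun

/-- the rates -/
noncomputable def cc (n : ℕ) (l : ℝ) (k : Fin n) : ℝ := ((n : ℝ) - (k : ℕ)) / l

theorem cc_pos {n : ℕ} {l : ℝ} (hl : 0 < l) (k : Fin n) : 0 < cc n l k := by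
  unfold cc
  have : ((k : ℕ) : ℝ) < n := by exact_mod_cast k.2
  exact div_pos (by linarith) hl

/-- the moments -/
noncomputable def gm (n : ℕ) (l : ℝ) (m : Fin n →₀ ℕ) : ℝ :=
  ∏ k, ((m k).factorial : ℝ) / cc n l k ^ (m k + 1)

theorem gm_pos {n : ℕ} {l : ℝ} (hl : 0 < l) (m : Fin n →₀ ℕ) : 0 < gm n l m := by
  unfold gm
  refine Finset.prod_pos fun k _ => div_pos (by positivity) (pow_pos (cc_pos hl k) _)

theorem gm_succ {n : ℕ} {l : ℝ} (hl : 0 < l) (m : Fin n →₀ ℕ) (k : Fin n) :
    cc n l k * gm n l (m + Finsupp.single k 1) = ((m k : ℝ) + 1) * gm n l m := by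
  unfold gm
  have hc := (cc_pos hl k).ne'
  rw [← Finset.mul_prod_erase _ _ (Finset.mem_univ k), ← Finset.mul_prod_erase _ _
    (Finset.mem_univ k)]
  have h1 : ∏ x ∈ Finset.univ.erase k, (((m + Finsupp.single k 1 : Fin n →₀ ℕ) x).factorial : ℝ) /
      cc n l x ^ ((m + Finsupp.single k 1 : Fin n →₀ ℕ) x + 1) =
      ∏ x ∈ Finset.univ.erase k, ((m x).factorial : ℝ) / cc n l x ^ (m x + 1) := by
    refine Finset.prod_congr rfl fun x hx => ?_
    have : (m + Finsupp.single k 1 : Fin n →₀ ℕ) x = m x := by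
      rw [Finsupp.add_apply, Finsupp.single_eq_of_ne (Finset.ne_of_mem_erase hx), add_zero]
    rw [this]
  rw [h1]
  have h2 : (m + Finsupp.single k 1 : Fin n →₀ ℕ) k = m k + 1 := by simp
  rw [h2, Nat.factorial_succ, pow_succ]
  push_cast
  field_simp

/-- the functional in the coordinates `y` -/
noncomputable def G0 (n : ℕ) (l : ℝ) : MvPolynomial (Fin n) ℂ →ₗ[ℂ] ℂ :=
  (basisMonomials (Fin n) ℂ).constr ℂ fun m => ((gm n l m : ℝ) : ℂ)

theorem G0_monomial (n : ℕ) (l : ℝ) (m : Fin n →₀ ℕ) (a : ℂ) :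
    G0 n l (monomial m a) = a * (gm n l m : ℝ) := by
  have h1 : monomial m a = a • (basisMonomials (Fin n) ℂ) m := by
    rw [coe_basisMonomials, smul_monomial, smul_eq_mul, mul_one]
  rw [h1, map_smul, G0, Module.Basis.constr_basis, smul_eq_mul]

theorem G0_pderiv {n : ℕ} {l : ℝ} (hl : 0 < l) (k : Fin n) (u : MvPolynomial (Fin n) ℂ) :
    G0 n l (pderiv k (X k * u)) = (cc n l k : ℝ) * G0 n l (X k * u) := by
  induction u using MvPolynomial.induction_on' with
  | monomial m a =>
    have h1 : (X k : MvPolynomial (Fin n) ℂ) * monomial m a =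
        monomial (m + Finsupp.single k 1) a := by
      rw [X, monomial_mul, one_mul, add_comm]
    rw [h1, pderiv_monomial, G0_monomial, G0_monomial]
    have h2 : m + Finsupp.single k 1 - Finsupp.single k 1 = m := add_tsub_cancel_right _ _
    have h3 : (m + Finsupp.single k 1 : Fin n →₀ ℕ) k = m k + 1 := by simp
    rw [h2, h3]
    have h4 := gm_succ hl m k
    have h5 : ((cc n l k : ℝ) : ℂ) * ((gm n l (m + Finsupp.single k 1) : ℝ) : ℂ) =
        ((m k : ℂ) + 1) * ((gm n l m : ℝ) : ℂ) := by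
      exact_mod_cast congrArg (fun x : ℝ => (x : ℂ)) h4
    push_cast
    linear_combination (-a) * h5
  | add p q hp hq =>
    rw [mul_add, map_add, map_add, map_add, hp, hq, mul_add]

/-- the coordinates -/
noncomputable def psi (n : ℕ) : Rx n →ₐ[ℂ] MvPolynomial (Fin n) ℂ :=
  aeval fun i => ∑ k ∈ Finset.Iic i, X k

theorem psi_X {n : ℕ} (i : Fin n) : psi n (X i) = ∑ k ∈ Finset.Iic i, X k := by
  rw [psi, aeval_X]

theorem psi_sub {n : ℕ} {i j : Fin n} (hij : i ≤ j) :
    psi n (X j - X i) = ∑ k ∈ Finset.Ioc i j, X k := by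
  rw [map_sub, psi_X, psi_X, sub_eq_iff_eq_add]
  rw [← Finset.sum_union]
  · congr 1
    ext k
    simp only [Finset.mem_Iic, Finset.mem_union, Finset.mem_Ioc]
    constructor
    · intro h
      rcases le_or_gt k i with h1 | h1
      · exact Or.inr h1
      · exact Or.inl ⟨h1, h⟩
    · rintro (h | h)
      · exact h.2
      · exact h.trans hij
  · rw [Finset.disjoint_left]
    intro k h1 h2
    rw [Finset.mem_Ioc] at h1
    rw [Finset.mem_Iic] at h2
    exact absurd h1.1 (not_lt.2 h2)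

/-- `∂ / ∂ x_i` in the coordinates `y` -/
noncomputable def del {n : ℕ} (i : Fin n) :
    Derivation ℂ (MvPolynomial (Fin n) ℂ) (MvPolynomial (Fin n) ℂ) :=
  if h : (i : ℕ) + 1 < n then pderiv i - pderiv ⟨(i : ℕ) + 1, h⟩ else pderiv i

theorem sum_pderiv {n : ℕ} (i j : Fin n) :
    pderiv i (∑ k ∈ Finset.Iic j, (X k : MvPolynomial (Fin n) ℂ)) = if i ≤ j then 1 else 0 := by
  rw [map_sum]
  simp only [pderiv_X, Pi.single_apply]
  rw [Finset.sum_ite_eq']
  simp only [Finset.mem_Iic]

theorem del_X {n : ℕ} (i j : Fin n) :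
    del i (∑ k ∈ Finset.Iic j, (X k : MvPolynomial (Fin n) ℂ)) = if i = j then 1 else 0 := by
  unfold del
  split_ifs with h h1 h1
  · rw [Derivation.sub_apply, sum_pderiv, sum_pderiv, if_pos h1.le, if_neg, sub_zero]
    rw [not_le, Fin.lt_def]
    subst h1
    simp
  · rw [Derivation.sub_apply, sum_pderiv, sum_pderiv]
    rcases lt_or_gt_of_ne h1 with h2 | h2
    · rw [if_pos h2.le, if_pos, sub_self]
      rw [Fin.le_def]
      rw [Fin.lt_def] at h2
      exact h2
    · rw [if_neg (not_le.2 h2), if_neg, sub_self]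
      rw [not_le, Fin.lt_def]
      rw [Fin.lt_def] at h2
      simp only
      omega
  · rw [sum_pderiv, if_pos h1.le]
  · rw [sum_pderiv, if_neg]
    rw [Fin.le_def]
    have h2 := j.2
    intro h3
    exact h1 (Fin.ext (by omega))

theorem psi_pderiv {n : ℕ} (i : Fin n) (u : Rx n) : psi n (pderiv i u) = del i (psi n u) := by
  induction u using MvPolynomial.induction_on with
  | C a => rw [pderiv_C, map_zero, algHom_C, algebraMap_eq, ← algebraMap_eq, Derivation.map_algebraMap]
  | add p q hp hq => rw [map_add, map_add, map_add, map_add, hp, hq]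
  | mul_X p j hp =>
    rw [Derivation.leibniz, map_add, map_mul, Derivation.leibniz, smul_eq_mul, smul_eq_mul,
      smul_eq_mul, smul_eq_mul, map_mul, map_mul, hp, psi_X, del_X, pderiv_X, Pi.single_apply]
    congr 2
    split_ifs with h1 h2 h2
    · exact map_one _
    · exact absurd h1.symm h2
    · exact absurd h2.symm h1
    · exact map_zero _

/-- nonzero polynomials with nonnegative real coefficients -/
def Pos {n : ℕ} (p : MvPolynomial (Fin n) ℂ) : Prop :=
  ∃ q : MvPolynomial (Fin n) ℝ, q ≠ 0 ∧ (∀ m, 0 ≤ coeff m q) ∧ p = map (algebraMap ℝ ℂ) q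

theorem pos_mul {n : ℕ} {p q : MvPolynomial (Fin n) ℂ} (hp : Pos p) (hq : Pos q) :
    Pos (p * q) := by
  obtain ⟨a, ha0, ha, rfl⟩ := hp
  obtain ⟨b, hb0, hb, rfl⟩ := hq
  refine ⟨a * b, mul_ne_zero ha0 hb0, fun m => ?_, by rw [map_mul]⟩
  classical
  rw [coeff_mul]
  exact Finset.sum_nonneg fun x _ => mul_nonneg (ha _) (hb _)

theorem pos_one {n : ℕ} : Pos (1 : MvPolynomial (Fin n) ℂ) := by
  refine ⟨1, one_ne_zero, fun m => ?_, by rw [map_one]⟩
  classical
  rw [coeff_one]
  split_ifs <;> norm_num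

theorem pos_prod {n : ℕ} {ι : Type} (s : Finset ι) (f : ι → MvPolynomial (Fin n) ℂ)
    (h : ∀ i ∈ s, Pos (f i)) : Pos (∏ i ∈ s, f i) :=
  Finset.prod_induction f Pos (fun _ _ => pos_mul) pos_one h

theorem pos_pow {n : ℕ} {p : MvPolynomial (Fin n) ℂ} (hp : Pos p) (k : ℕ) : Pos (p ^ k) := by
  induction k with
  | zero => rw [pow_zero]; exact pos_one
  | succ k ih => rw [pow_succ]; exact pos_mul ih hp

theorem pos_sum {n : ℕ} (S : Finset (Fin n)) (hS : S.Nonempty) :
    Pos (∑ k ∈ S, (X k : MvPolynomial (Fin n) ℂ)) := by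
  refine ⟨∑ k ∈ S, X k, fun h => ?_, fun m => ?_, ?_⟩
  · have h1 := congrArg (eval fun _ => (1 : ℝ)) h
    rw [map_sum, map_zero] at h1
    simp only [eval_X, Finset.sum_const, nsmul_eq_mul, mul_one] at h1
    have h2 : 0 < S.card := hS.card_pos
    have h3 : (0 : ℝ) < S.card := by exact_mod_cast h2
    linarith
  · classical
    rw [coeff_sum]
    refine Finset.sum_nonneg fun k _ => ?_
    rw [coeff_X]
    split_ifs <;> norm_num
  · rw [map_sum]
    simp only [map_X]

theorem G0_pos {n : ℕ} {l : ℝ} (hl : 0 < l) {p : MvPolynomial (Fin n) ℂ} (hp : Pos p) :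
    G0 n l p ≠ 0 := by
  obtain ⟨q, hq0, hq, rfl⟩ := hp
  have h1 : G0 n l (map (algebraMap ℝ ℂ) q) =
      ((∑ m ∈ q.support, coeff m q * gm n l m : ℝ) : ℂ) := by
    conv_lhs => rw [← support_sum_monomial_coeff q]
    rw [map_sum, map_sum]
    push_cast
    refine Finset.sum_congr rfl fun m _ => ?_
    rw [map_monomial, G0_monomial]
    rfl
  rw [h1]
  have h2 : 0 < ∑ m ∈ q.support, coeff m q * gm n l m := by
    apply Finset.sum_pos
    · intro m hm
      exact mul_pos (lt_of_le_of_ne (hq m) (Ne.symm (mem_support_iff.1 hm))) (gm_pos hl m)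
    · rwa [Finset.nonempty_iff_ne_empty, Ne, MvPolynomial.support_eq_empty]
  exact_mod_cast h2.ne'

end Fun

open Fun

theorem t_Fun : StmFun := by
  intro n l hl
  refine ⟨G0 n l ∘ₗ (psi n).toLinearMap, ?_, ?_⟩
  · intro i u h1 h2 h3
    have hlC : (l : ℂ) ≠ 0 := by exact_mod_cast hl.ne'
    -- `y_i` divides `ψ u`
    have hd : (X i : MvPolynomial (Fin n) ℂ) ∣ psi n u := by
      rcases Nat.eq_zero_or_pos (i : ℕ) with h | h
      · obtain ⟨w, hw⟩ := h2 h
        rw [hw, map_mul, psi_X]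
        have : Finset.Iic i = {i} := by
          ext k
          rw [Finset.mem_Iic, Finset.mem_singleton, Fin.le_def, Fin.ext_iff]
          omega
        rw [this, Finset.sum_singleton]
        exact dvd_mul_right _ _
      · have hk : (i : ℕ) - 1 < n := by have := i.2; omega
        obtain ⟨w, hw⟩ := h1 ⟨(i : ℕ) - 1, hk⟩ (by simp only; omega)
        rw [hw, map_mul, psi_sub (by rw [Fin.le_def]; simp only; omega)]
        have : Finset.Ioc (⟨(i : ℕ) - 1, hk⟩ : Fin n) i = {i} := by
          ext k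
          rw [Finset.mem_Ioc, Finset.mem_singleton, Fin.lt_def, Fin.le_def, Fin.ext_iff]
          simp only
          omega
        rw [this, Finset.sum_singleton]
        exact dvd_mul_right _ _
    have hG1 : G0 n l (pderiv i (psi n u)) = (cc n l i : ℝ) * G0 n l (psi n u) := by
      obtain ⟨w, hw⟩ := hd
      rw [hw]
      exact G0_pderiv hl i w
    rw [LinearMap.comp_apply, LinearMap.comp_apply, AlgHom.toLinearMap_apply,
      AlgHom.toLinearMap_apply, psi_pderiv]
    unfold del
    split_ifs with h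
    · have hd2 : (X ⟨(i : ℕ) + 1, h⟩ : MvPolynomial (Fin n) ℂ) ∣ psi n u := by
        obtain ⟨w, hw⟩ := h3 ⟨(i : ℕ) + 1, h⟩ rfl
        rw [hw, map_mul, psi_sub (by rw [Fin.le_def]; simp)]
        have : Finset.Ioc i (⟨(i : ℕ) + 1, h⟩ : Fin n) = {⟨(i : ℕ) + 1, h⟩} := by
          ext k
          rw [Finset.mem_Ioc, Finset.mem_singleton, Fin.lt_def, Fin.le_def, Fin.ext_iff]
          simp only
          omega
        rw [this, Finset.sum_singleton]
        exact dvd_mul_right _ _
      have hG2 : G0 n l (pderiv ⟨(i : ℕ) + 1, h⟩ (psi n u)) =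
          (cc n l ⟨(i : ℕ) + 1, h⟩ : ℝ) * G0 n l (psi n u) := by
        obtain ⟨w, hw⟩ := hd2
        rw [hw]
        exact G0_pderiv hl _ w
      rw [Derivation.sub_apply, map_sub, hG1, hG2]
      unfold cc
      push_cast
      field_simp
      ring
    · rw [hG1]
      have hn : (n : ℝ) = (i : ℕ) + 1 := by
        have := i.2
        have h4 : n = (i : ℕ) + 1 := by omega
        exact_mod_cast h4
      unfold cc
      rw [hn]
      push_cast
      field_simp
      ring
  · intro k v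
    rw [LinearMap.comp_apply, AlgHom.toLinearMap_apply]
    apply G0_pos hl
    rw [map_mul, map_pow, map_pow]
    refine pos_mul (pos_pow ?_ _) (pos_pow ?_ _)
    · unfold Dl
      rw [map_prod]
      refine pos_prod _ _ fun i _ => ?_
      rw [map_prod]
      refine pos_prod _ _ fun j hj => ?_
      rw [Finset.mem_Ioi] at hj
      rw [psi_sub hj.le]
      exact pos_sum _ ⟨j, Finset.mem_Ioc.2 ⟨hj, le_rfl⟩⟩
    · unfold Yp
      rw [map_prod]
      refine pos_prod _ _ fun i _ => ?_
      rw [psi_X]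
      exact pos_sum _ ⟨i, Finset.mem_Iic.2 le_rfl⟩

end Pool.Agent.K3h15.DM
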