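import Pool.Agent.K3h15.DM.Base

/-! # Integration by parts in the coefficients -/

set_option autoImplicit false

namespace Pool.Agent.K3h15.DM

open MvPolynomial

theorem dvd_Dl {n : ℕ} {i j : Fin n} (h : i < j) : (X j - X i : Rx n) ∣ Dl n := by
  rw [Dl]
  exact (Finset.dvd_prod_of_mem (fun j : Fin n => (X j - X i : Rx n))
    (Finset.mem_Ioi.mpr h)).trans
    (Finset.dvd_prod_of_mem (fun i : Fin n => ∏ j ∈ Finset.Ioi i, (X j - X i : Rx n))
      (Finset.mem_univ i))

theorem dvd_Yp {n : ℕ} (i : Fin n) : (X i : Rx n) ∣ Yp n := by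
  rw [Yp]
  exact Finset.dvd_prod_of_mem (fun i : Fin n => (X i : Rx n)) (Finset.mem_univ i)

/-- the functional on the polynomials in the coefficients -/
noncomputable def Lam {n : ℕ} (z : ℂ) (G : Rx n →ₗ[ℂ] ℂ) : MvPolynomial (Fin n) ℂ →ₗ[ℂ] ℂ :=
  G ∘ₗ LinearMap.mulLeft ℂ (Dl n) ∘ₗ (sh n z).toLinearMap

theorem Lam_apply {n : ℕ} (z : ℂ) (G : Rx n →ₗ[ℂ] ℂ) (g : MvPolynomial (Fin n) ℂ) :
    Lam z G g = G (Dl n * sh n z g) := rfl

theorem sh_psi (n : ℕ) (hn : 0 < n) (z : ℂ) :
    sh n z (-X ⟨n - 1, by omega⟩ - C ((n : ℂ) * z)) = ∑ i, X i := by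
  have h1 : (hx n z).coeff (n - 1) = -∑ i : Fin n, (X i + C z : Rx n) := by
    have := Polynomial.prod_X_sub_C_coeff_card_pred (R := Rx n) (Finset.univ : Finset (Fin n))
      (fun i => X i + C z) (by simpa using hn)
    rw [Finset.card_univ, Fintype.card_fin] at this
    exact this
  rw [map_sub, map_neg, sh_X, sh_C]
  simp only
  rw [h1, Finset.sum_add_distrib]
  simp

theorem ibp (hMat : StmMat) {n : ℕ} (hn : 0 < n) (z : ℂ) {l : ℝ} (hl : 0 < l)
    {G : Rx n →ₗ[ℂ] ℂ} (hG : IsFun l G) {F : MvPolynomial (Fin n) ℂ} (hF : IsDisc n F) :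
    IsIBP F (hz n z) (fun j => if j = (⟨n - 1, by omega⟩ : Fin n) then C (-1 / (l : ℂ)) else 0)
      (Lam z G) := by
  obtain ⟨A, hA, hA'⟩ := hMat n z
  intro j H hH
  obtain ⟨H', rfl⟩ := hH
  have hlne : (l : ℂ) ≠ 0 := by exact_mod_cast hl.ne'
  -- divisibility
  have hs : sh n z (F * hz n z * H') = Dl n * (Dl n * (Yp n * ((-1) ^ n * sh n z H'))) := by
    rw [map_mul, map_mul, sh_disc hF, sh_hz_self]
    ring
  have hd1 : ∀ i j : Fin n, i < j → (X j - X i : Rx n) ∣ sh n z (F * hz n z * H') := by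
    intro i j hij
    rw [hs]
    exact (dvd_Dl hij).mul_right _
  have hd2 : ∀ i : Fin n, (X i : Rx n) ∣ sh n z (F * hz n z * H') := by
    intro i
    rw [hs]
    exact ((dvd_Yp i).mul_right _).mul_left _ |>.mul_left _
  generalize hHdef : F * hz n z * H' = H at *
  rw [Lam_apply, Lam_apply, hA]
  -- the total derivative
  have h1 : ∑ i, A j i * pderiv i (sh n z H) = ∑ i, pderiv i (A j i * sh n z H) := by
    have : ∀ i, pderiv i (A j i * sh n z H) =
        A j i * pderiv i (sh n z H) + pderiv i (A j i) * sh n z H := by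
      intro i
      rw [Derivation.leibniz, smul_eq_mul, smul_eq_mul]
      ring
    rw [Finset.sum_congr rfl fun i _ => this i, Finset.sum_add_distrib, ← Finset.sum_mul, hA' j,
      zero_mul, add_zero]
  have h2 : ∀ i, G (pderiv i (A j i * sh n z H)) = (1 / (l : ℂ)) * G (A j i * sh n z H) := by
    intro i
    have := hG.1 i (A j i * sh n z H) (fun k hk => (hd1 k i (by
      rw [Fin.lt_def]; omega)).mul_left _) (fun _ => (hd2 i).mul_left _)
      (fun k hk => (hd1 i k (by rw [Fin.lt_def]; omega)).mul_left _)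
    rw [← this]
    field_simp
  have h3 : ∑ i, A j i = Dl n * (if j = (⟨n - 1, by omega⟩ : Fin n) then -1 else 0) := by
    have h4 := hA j (-X ⟨n - 1, by omega⟩ - C ((n : ℂ) * z))
    rw [sh_psi n hn z] at h4
    have h5 : ∀ i : Fin n, pderiv i (∑ k, X k : Rx n) = 1 := by
      intro i
      rw [map_sum, Finset.sum_eq_single i]
      · exact pderiv_X_self i
      · intro k _ hk
        exact pderiv_X_of_ne hk
      · intro h
        exact absurd (Finset.mem_univ i) h
    simp only [h5, mul_one] at h4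
    rw [← h4, map_sub, map_neg, pderiv_C, sub_zero, pderiv_X]
    congr 1
    by_cases hj : j = (⟨n - 1, by omega⟩ : Fin n)
    · rw [if_pos hj, hj]
      simp
    · rw [if_neg hj, Pi.single_eq_of_ne]
      · simp
      · exact fun h => hj h.symm
  rw [h1, map_sum, Finset.sum_congr rfl fun i _ => h2 i, ← Finset.mul_sum, ← map_sum,
    ← Finset.sum_mul, h3]
  dsimp only
  by_cases hj : j = (⟨n - 1, by omega⟩ : Fin n)
  · rw [if_pos hj, if_pos hj, map_mul (sh n z), sh_C]
    have h6 : Dl n * (C (-1 / (l : ℂ)) * sh n z H) = (-1 / (l : ℂ)) • (Dl n * sh n z H) := by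
      rw [MvPolynomial.smul_eq_C_mul]
      ring
    have h7 : Dl n * -1 * sh n z H = (-1 : ℂ) • (Dl n * sh n z H) := by
      rw [MvPolynomial.smul_eq_C_mul, map_neg, map_one]
      ring
    rw [h6, h7, map_smul, map_smul, smul_eq_mul, smul_eq_mul]
    ring
  · rw [if_neg hj, if_neg hj]
    simp

end Pool.Agent.K3h15.DM
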