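import Pool.Agent.K3h15.DM.Mult
import Pool.Agent.K3h15.DM.Ibp

/-! # The functional equation, integrated -/

set_option autoImplicit false

namespace Pool.Agent.K3h15.DM

open MvPolynomial
open Pool.Agent.H628R4.TP (weylS IsBFunction)

theorem hz_ne (n : ℕ) (w : ℂ) : hz n w ≠ 0 := by
  intro h
  have h1 := sh_hz_self n w
  rw [h, map_zero] at h1
  have h2 : ((-1 : Rx n) ^ n) ≠ 0 := pow_ne_zero _ (neg_ne_zero.mpr one_ne_zero)
  exact (mul_ne_zero h2 (Yp_ne n)) h1.symm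

theorem disc_ne {n : ℕ} {F : MvPolynomial (Fin n) ℂ} (hF : IsDisc n F) : F ≠ 0 := by
  intro h
  have h1 := sh_disc hF 0
  rw [h, map_zero] at h1
  exact pow_ne_zero 2 (Dl_ne n) h1.symm

theorem gen {n : ℕ} (hn : 0 < n) {DD : Fin n → Fin n → (Rx n →ₗ[ℂ] Rx n)} (hDD : IsDD DD)
    (hMat : StmMat) (hFun : StmFun) (hExp : StmExp) (hPol : StmPol) (hAdj : StmAdj)
    {F : MvPolynomial (Fin n) ℂ} (hF : IsDisc n F) (z : ℂ) {a b : ℕ} (ha : 1 ≤ a)
    {u : MvPolynomial (Fin n) ℂ} (hu : u ≠ 0) {c : Polynomial ℂ}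
    (hc : IsBFunction (F ^ a * hz n z ^ b * u) c) :
    ∃ M : ℕ, ∀ (l : ℝ), 0 < l → ∀ (e : ℕ) (v1 : MvPolynomial (Fin n) ℂ),
      ((1 ≤ b ∧ e = 0) ∨ hz n z ^ (M + 1) ∣ v1) → ∀ N : ℕ,
      (sh n z (v1 * u ^ M)).totalDegree ≤ N → ∀ S : ℂ,
      (∀ (r : MvPolynomial (Fin n) ℂ) (N' : ℕ),
        (Dl n ^ (2 * a) * Yp n ^ b * sh n z r).totalDegree ≤ N' →
        Ex DD l N' (a * S + 1 / 2) (b * S + e) (Dl n ^ (2 * a) * Yp n ^ b * sh n z r) = 0) →
      c.eval S * Ex DD l N (a * S + 1 / 2) (b * S + e) (sh n z (v1 * u ^ M)) = 0 := by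
  obtain ⟨P, hP⟩ := hc
  have hadj := fun m : ℕ => hAdj n F (hz n z) u (P m : Module.End ℂ (MvPolynomial (Fin n) ℂ))
    (P m).2
  choose m0 hm0 using hadj
  refine ⟨P.support.sup m0, ?_⟩
  set M := P.support.sup m0 + 1 with hMdef
  have hM : ∀ m ∈ P.support, m0 m ≤ M := fun m hm =>
    (Finset.le_sup (f := m0) hm).trans (Nat.le_succ _)
  have hM1 : P.support.sup m0 = M - 1 := by omega
  rw [hM1]
  have hM1' : 1 ≤ M := by omega
  clear_value M
  intro l hl e v1 hv1 N hN S hvan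
  obtain ⟨G, hG⟩ := hFun n l hl
  set w : Fin n → MvPolynomial (Fin n) ℂ :=
    fun j => if j = (⟨n - 1, by omega⟩ : Fin n) then C (-1 / (l : ℂ)) else 0 with hw
  have hibp : IsIBP F (hz n z) w (Lam z G) := ibp hMat hn z hl hG hF
  -- the adjoints
  have hB : ∀ m : ℕ, ∃ (K : ℕ) (B : ℕ → (MvPolynomial (Fin n) ℂ →ₗ[ℂ] MvPolynomial (Fin n) ℂ)),
      m ∈ P.support → (∀ k v i, hz n z ^ (M + i) ∣ v → hz n z ^ i ∣ B k v) ∧
      ∀ (s : ℕ) (H : MvPolynomial (Fin n) ℂ), ∃ W : MvPolynomial (Fin n) ℂ,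
        (P m : Module.End ℂ (MvPolynomial (Fin n) ℂ)) (u ^ (s + M) * H) = u ^ s * W ∧
        (∀ i, F ^ (M + i) ∣ H → F ^ i ∣ W) ∧ (∀ i, hz n z ^ (M + i) ∣ H → hz n z ^ i ∣ W) ∧
        ∀ (v : MvPolynomial (Fin n) ℂ) (Λ : MvPolynomial (Fin n) ℂ →ₗ[ℂ] ℂ),
          IsIBP F (hz n z) w Λ → F ^ M ∣ H → (hz n z ^ M ∣ H ∨ hz n z ^ M ∣ v) →
          Λ (v * W) = Λ ((∑ k ∈ Finset.range K, ((s : ℂ) ^ k) • B k v) * H) := by
    intro m
    by_cases hm : m ∈ P.support
    · obtain ⟨K, B, h⟩ := hm0 m M (hM m hm) w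
      exact ⟨K, B, fun _ => h⟩
    · exact ⟨0, fun _ => 0, fun h => absurd h hm⟩
  choose K B hB using hB
  set v := hz n z ^ e * v1 with hv
  have hr : ∀ m k : ℕ, ∃ r : MvPolynomial (Fin n) ℂ, m ∈ P.support →
      B m k v = hz n z ^ e * r := by
    intro m k
    by_cases hm : m ∈ P.support
    · rcases hv1 with ⟨_, he⟩ | hv1
      · exact ⟨B m k v, fun _ => by rw [he, pow_zero, one_mul]⟩
      · have : hz n z ^ e ∣ B m k v := by
          refine (hB m hm).1 k v e ?_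
          rw [hv, add_comm, pow_add]
          exact mul_dvd_mul_left _ hv1
        obtain ⟨r, hr⟩ := this
        exact ⟨r, fun _ => hr⟩
    · exact ⟨0, fun h => absurd h hm⟩
  choose r hr using hr
  set σ : ℂ := (-1) ^ n with hσ
  have hσ0 : σ ≠ 0 := pow_ne_zero _ (neg_ne_zero.mpr one_ne_zero)
  have hshz : sh n z (hz n z) = C σ * Yp n := by
    rw [sh_hz_self, hσ]
    simp
  set q : ℕ → ℕ → Rx n := fun m k => Dl n ^ (2 * a) * Yp n ^ b * sh n z (r m k) with hq
  have hD2 : Sym (Dl n ^ 2) := by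
    rw [← sh_disc hF 0]
    exact sym_sh n 0 F
  have hqs : ∀ m k, Sym (q m k) := by
    intro m k
    rw [hq]
    dsimp only
    rw [pow_mul]
    exact sym_mul (sym_mul (sym_pow hD2 a) (sym_pow (sym_Yp n) b)) (sym_sh n z _)
  -- the functional equation at integers
  have key : ∀ s : ℕ, M ≤ s →
      c.eval (s : ℂ) * Ex DD l N (a * (s : ℂ) + 1 / 2) (b * (s : ℂ) + e)
        (sh n z (v1 * u ^ (M - 1))) =
      ∑ m ∈ P.support, ∑ k ∈ Finset.range (K m), (s : ℂ) ^ m * ((s : ℂ) + 1 - M) ^ k * σ ^ b *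
        Ex DD l (q m k).totalDegree (a * (s : ℂ) + 1 / 2) (b * (s : ℂ) + e) (q m k) := by
    intro s hs
    obtain ⟨s', hs'⟩ : ∃ s', s + 1 = s' + M := ⟨s + 1 - M, by omega⟩
    set H : MvPolynomial (Fin n) ℂ := (F ^ a * hz n z ^ b) ^ (s + 1) with hH
    have hfH : (F ^ a * hz n z ^ b * u) ^ (s + 1) = u ^ (s' + M) * H := by
      rw [← hs', hH]
      ring
    have hFH : F ^ M ∣ H := by
      rw [hH, mul_pow, ← pow_mul]
      refine (pow_dvd_pow F ?_).mul_right _
      calc M ≤ 1 * (s + 1) := by omega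
        _ ≤ a * (s + 1) := Nat.mul_le_mul_right _ ha
    have hYH : hz n z ^ M ∣ H ∨ hz n z ^ M ∣ v := by
      rcases hv1 with ⟨hb, _⟩ | hv1
      · left
        rw [hH, mul_pow, ← pow_mul _ b]
        refine (pow_dvd_pow (hz n z) ?_).mul_left _
        calc M ≤ 1 * (s + 1) := by omega
          _ ≤ b * (s + 1) := Nat.mul_le_mul_right _ hb
      · right
        exact hv1.mul_left _
    -- the operators
    have hW : ∀ m : ℕ, ∃ W : MvPolynomial (Fin n) ℂ, m ∈ P.support →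
        (P m : Module.End ℂ (MvPolynomial (Fin n) ℂ)) (u ^ (s' + M) * H) = u ^ s' * W ∧
        Lam z G (v * W) =
          Lam z G ((∑ k ∈ Finset.range (K m), ((s' : ℂ) ^ k) • B m k v) * H) := by
      intro m
      by_cases hm : m ∈ P.support
      · obtain ⟨W, h1, _, _, h4⟩ := (hB m hm).2 s' H
        exact ⟨W, fun _ => ⟨h1, h4 v (Lam z G) hibp hFH hYH⟩⟩
      · exact ⟨0, fun h => absurd h hm⟩
    choose W hW using hW
    have e1 : C (c.eval (s : ℂ)) * u ^ (M - 1) * (F ^ a * hz n z ^ b) ^ s =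
        ∑ m ∈ P.support, ((s : ℂ) ^ m) • W m := by
      have e2 := hP s
      rw [Finsupp.sum] at e2
      have e3 : ∑ m ∈ P.support, ((s : ℂ) ^ m) •
          (P m : Module.End ℂ (MvPolynomial (Fin n) ℂ)) ((F ^ a * hz n z ^ b * u) ^ (s + 1)) =
          u ^ s' * ∑ m ∈ P.support, ((s : ℂ) ^ m) • W m := by
        rw [Finset.mul_sum]
        refine Finset.sum_congr rfl fun m hm => ?_
        rw [hfH, (hW m hm).1, mul_smul_comm]
      rw [e3] at e2
      have e4 : (F ^ a * hz n z ^ b * u) ^ s = u ^ s' * (u ^ (M - 1) *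
          (F ^ a * hz n z ^ b) ^ s) := by
        have : s = s' + (M - 1) := by omega
        rw [mul_pow _ u, ← mul_assoc, ← pow_add, ← this]
        ring
      rw [e4] at e2
      have e5 : u ^ s' * (C (c.eval (s : ℂ)) * u ^ (M - 1) * (F ^ a * hz n z ^ b) ^ s) =
          u ^ s' * ∑ m ∈ P.support, ((s : ℂ) ^ m) • W m := by
        rw [← e2]
        ring
      exact mul_left_cancel₀ (pow_ne_zero _ hu) e5
    -- apply the functional
    have e6 : c.eval (s : ℂ) * Lam z G (v * (u ^ (M - 1) * (F ^ a * hz n z ^ b) ^ s)) =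
        ∑ m ∈ P.support, ∑ k ∈ Finset.range (K m), (s : ℂ) ^ m * (s' : ℂ) ^ k *
          Lam z G (hz n z ^ e * r m k * H) := by
      have e7 : v * (C (c.eval (s : ℂ)) * u ^ (M - 1) * (F ^ a * hz n z ^ b) ^ s) =
          (c.eval (s : ℂ)) • (v * (u ^ (M - 1) * (F ^ a * hz n z ^ b) ^ s)) := by
        rw [MvPolynomial.smul_eq_C_mul]
        ring
      have e8 := congrArg (fun t => Lam z G (v * t)) e1
      simp only [e7, map_smul, smul_eq_mul, Finset.mul_sum, map_sum] at e8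
      rw [e8]
      refine Finset.sum_congr rfl fun m hm => ?_
      rw [mul_smul_comm, map_smul, (hW m hm).2, smul_eq_mul, Finset.sum_mul, map_sum,
        Finset.mul_sum]
      refine Finset.sum_congr rfl fun k _ => ?_
      rw [smul_mul_assoc, map_smul, smul_eq_mul, hr m k hm, mul_assoc ((s : ℂ) ^ m)]
    -- the values of the functional
    have e9 : ∀ p : Rx n, Sym p → ∀ N0, p.totalDegree ≤ N0 →
        G (Dl n ^ (2 * (a * s) + 1) * Yp n ^ (b * s + e) * p) =
        G (Dl n ^ (2 * (a * s) + 1) * Yp n ^ (b * s + e)) *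
          Ex DD l N0 (a * (s : ℂ) + 1 / 2) (b * (s : ℂ) + e) p := by
      intro p hp N0 hN0
      have := hExp n DD hDD l G hl hG (a * s) (b * s + e) N0 p hp hN0
      push_cast at this
      exact this
    have hne := hG.2 (a * s) (b * s + e)
    have hGC : ∀ (x : ℂ) (p : Rx n), x * G p = G (C x * p) := by
      intro x p
      rw [← smul_eq_mul, ← map_smul, MvPolynomial.smul_eq_C_mul]
    have e10 : Lam z G (v * (u ^ (M - 1) * (F ^ a * hz n z ^ b) ^ s)) =
        σ ^ (b * s + e) * (G (Dl n ^ (2 * (a * s) + 1) * Yp n ^ (b * s + e)) *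
          Ex DD l N (a * (s : ℂ) + 1 / 2) (b * (s : ℂ) + e) (sh n z (v1 * u ^ (M - 1)))) := by
      rw [← e9 _ (sym_sh n z _) N hN, Lam_apply, hGC]
      congr 1
      rw [hv]
      simp only [map_mul, map_pow, sh_disc hF, hshz]
      ring
    have e11 : ∀ m k, Lam z G (hz n z ^ e * r m k * H) =
        σ ^ (b * s + e) * (G (Dl n ^ (2 * (a * s) + 1) * Yp n ^ (b * s + e)) *
          (σ ^ b * Ex DD l (q m k).totalDegree (a * (s : ℂ) + 1 / 2) (b * (s : ℂ) + e)
            (q m k))) := by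
      intro m k
      rw [mul_left_comm _ (σ ^ b), ← e9 _ (hqs m k) _ le_rfl, Lam_apply, hGC, hGC]
      congr 1
      rw [hH, hq]
      simp only [map_mul, map_pow, sh_disc hF, hshz]
      ring
    rw [e10] at e6
    simp only [e11] at e6
    have hs'c : (s' : ℂ) = (s : ℂ) + 1 - M := by
      have : ((s + 1 : ℕ) : ℂ) = ((s' + M : ℕ) : ℂ) := by rw [hs']
      push_cast at this
      rw [this]
      ring
    have hne2 : σ ^ (b * s + e) * G (Dl n ^ (2 * (a * s) + 1) * Yp n ^ (b * s + e)) ≠ 0 :=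
      mul_ne_zero (pow_ne_zero _ hσ0) hne
    apply mul_left_cancel₀ hne2
    calc _ = c.eval (s : ℂ) * (σ ^ (b * s + e) *
          (G (Dl n ^ (2 * (a * s) + 1) * Yp n ^ (b * s + e)) *
          Ex DD l N (a * (s : ℂ) + 1 / 2) (b * (s : ℂ) + e) (sh n z (v1 * u ^ (M - 1))))) := by
            ring
      _ = _ := by
        rw [e6, Finset.mul_sum]
        refine Finset.sum_congr rfl fun m _ => ?_
        rw [Finset.mul_sum]
        refine Finset.sum_congr rfl fun k _ => ?_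
        rw [hs'c]
        ring
  -- polynomials in `s`
  obtain ⟨P1, hP1⟩ := (hPol n DD l N (sh n z (v1 * u ^ (M - 1)))).1 a (1 / 2) b e
  have hP2 := fun m k => (hPol n DD l (q m k).totalDegree (q m k)).1 a (1 / 2) b e
  choose P2 hP2 using hP2
  have hpoly : c * P1 = ∑ m ∈ P.support, ∑ k ∈ Finset.range (K m),
      Polynomial.X ^ m * (Polynomial.X + Polynomial.C (1 - (M : ℂ))) ^ k * Polynomial.C (σ ^ b) *
        P2 m k := by
    refine poly_eq M fun s hs => ?_
    rw [Polynomial.eval_mul, hP1, key s hs, Polynomial.eval_finsetSum]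
    refine Finset.sum_congr rfl fun m _ => ?_
    rw [Polynomial.eval_finsetSum]
    refine Finset.sum_congr rfl fun k _ => ?_
    rw [Polynomial.eval_mul, hP2]
    simp only [Polynomial.eval_mul, Polynomial.eval_pow, Polynomial.eval_X, Polynomial.eval_add,
      Polynomial.eval_C]
    ring
  have h := congrArg (fun Q : Polynomial ℂ => Q.eval S) hpoly
  simp only [Polynomial.eval_mul, hP1, Polynomial.eval_finsetSum, hP2] at h
  rw [h]
  refine Finset.sum_eq_zero fun m _ => Finset.sum_eq_zero fun k _ => ?_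
  rw [hvan (r m k) (q m k).totalDegree le_rfl, mul_zero]

end Pool.Agent.K3h15.DM
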