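import Pool.Agent.K3h15.DM.Stm

/-!
# Brick MAT: derivatives with respect to the coefficients (by helper70)
-/

set_option autoImplicit false

namespace Pool.Agent.K3h15.DM

open MvPolynomial

namespace Mt

/-- the shifted roots -/
noncomputable def tt (n : ℕ) (z : ℂ) (i : Fin n) : Rx n := X i + C z

/-- the product without the factor of index `i` -/
noncomputable def RR (n : ℕ) (z : ℂ) (i : Fin n) : Polynomial (Rx n) :=
  ∏ l ∈ Finset.univ.erase i, (Polynomial.X - Polynomial.C (tt n z l))

theorem hx_eq (n : ℕ) (z : ℂ) (i : Fin n) :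
    hx n z = (Polynomial.X - Polynomial.C (tt n z i)) * RR n z i := by
  unfold hx RR
  rw [Finset.mul_prod_erase Finset.univ (fun l => Polynomial.X - Polynomial.C (tt n z l))
    (Finset.mem_univ i)]
  rfl

theorem pderiv_RR (n : ℕ) (z : ℂ) (i : Fin n) (k : ℕ) : pderiv i ((RR n z i).coeff k) = 0 := by
  have h : ∀ k, pderiv i ((RR n z i).coeff k) = 0 := by
    unfold RR
    refine Finset.prod_induction _
      (fun P : Polynomial (Rx n) => ∀ k, pderiv i (P.coeff k) = 0) ?_ ?_ ?_
    · intro P Q hP hQ k
      rw [Polynomial.coeff_mul, map_sum]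
      refine Finset.sum_eq_zero fun x _ => ?_
      rw [Derivation.leibniz, hP, hQ, smul_zero, smul_zero, add_zero]
    · intro k
      rw [Polynomial.coeff_one]
      split_ifs
      · exact Derivation.map_one_eq_zero _
      · exact map_zero _
    · intro l hl k
      rw [Polynomial.coeff_sub, Polynomial.coeff_X, Polynomial.coeff_C, map_sub]
      have h1 : pderiv i (if 1 = k then (1 : Rx n) else 0) = 0 := by
        split_ifs
        · exact Derivation.map_one_eq_zero _
        · exact map_zero _
      have h2 : pderiv i (if k = 0 then tt n z l else 0) = 0 := by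
        split_ifs
        · unfold tt
          rw [map_add, pderiv_C, add_zero, pderiv_X, Pi.single_apply,
            if_neg (Finset.ne_of_mem_erase hl)]
        · exact map_zero _
      rw [h1, h2, sub_zero]
  exact h k

/-- the Jacobian matrix -/
theorem pderiv_hx (n : ℕ) (z : ℂ) (i : Fin n) (k : ℕ) :
    pderiv i ((hx n z).coeff k) = - (RR n z i).coeff k := by
  have h1 : pderiv i (tt n z i) = 1 := by
    unfold tt
    rw [map_add, pderiv_C, add_zero, pderiv_X, Pi.single_apply, if_pos rfl]
  rw [hx_eq n z i, sub_mul, Polynomial.coeff_sub, Polynomial.coeff_C_mul, map_sub,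
    Derivation.leibniz, pderiv_RR, smul_zero, zero_add, h1, smul_eq_mul, mul_one]
  have h2 : pderiv i ((Polynomial.X * RR n z i).coeff k) = 0 := by
    cases k with
    | zero => rw [Polynomial.mul_coeff_zero, Polynomial.coeff_X_zero, zero_mul, map_zero]
    | succ k => rw [Polynomial.coeff_X_mul, pderiv_RR]
  rw [h2, zero_sub]

theorem monic_RR (n : ℕ) (z : ℂ) (i : Fin n) : (RR n z i).Monic :=
  Polynomial.monic_prod_of_monic _ _ fun _ _ => Polynomial.monic_X_sub_C _

theorem natDegree_RR (n : ℕ) (z : ℂ) (i : Fin n) : (RR n z i).natDegree = n - 1 := by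
  unfold RR
  rw [Polynomial.natDegree_prod_of_monic _ _ fun _ _ => Polynomial.monic_X_sub_C _]
  rw [Finset.sum_congr rfl fun l _ => Polynomial.natDegree_X_sub_C (tt n z l)]
  rw [Finset.sum_const, Finset.card_erase_of_mem (Finset.mem_univ i), Finset.card_univ,
    Fintype.card_fin, smul_eq_mul, mul_one]

/-- the derivative of `h` at the roots -/
noncomputable def ff (n : ℕ) (i : Fin n) : Rx n := ∏ l ∈ Finset.univ.erase i, (X i - X l)

theorem eval_RR (n : ℕ) (z : ℂ) (i i' : Fin n) :
    ∑ j : Fin n, (RR n z i).coeff j * tt n z i' ^ (j : ℕ) = if i = i' then ff n i else 0 := by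
  have h0 : 0 < n := lt_of_le_of_lt (Nat.zero_le _) i.2
  have h1 : (RR n z i).eval (tt n z i') =
      ∑ j : Fin n, (RR n z i).coeff j * tt n z i' ^ (j : ℕ) := by
    rw [Polynomial.eval_eq_sum_range' (n := n) (by rw [natDegree_RR]; omega), Finset.sum_range]
  rw [← h1]
  unfold RR
  rw [Polynomial.eval_prod]
  split_ifs with h
  · subst h
    unfold ff
    refine Finset.prod_congr rfl fun l _ => ?_
    rw [Polynomial.eval_sub, Polynomial.eval_X, Polynomial.eval_C]
    unfold tt
    ring
  · refine Finset.prod_eq_zero (i := i') ?_ ?_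
    · exact Finset.mem_erase.2 ⟨fun h2 => h h2.symm, Finset.mem_univ _⟩
    · rw [Polynomial.eval_sub, Polynomial.eval_X, Polynomial.eval_C, sub_self]

theorem exists_dl (n : ℕ) (i : Fin n) : ∃ d : Rx n, d * ff n i = - Dl n ∧ pderiv i d = 0 := by
  classical
  refine ⟨(-1) ^ ((Finset.Ioi i).card + 1) *
    ∏ a ∈ Finset.univ.erase i, ∏ b ∈ (Finset.Ioi a).erase i, (X b - X a), ?_, ?_⟩
  · have h1 : Dl n = (∏ b ∈ Finset.Ioi i, (X b - X i)) *
        ((∏ a ∈ Finset.Iio i, (X i - X a)) *
        ∏ a ∈ Finset.univ.erase i, ∏ b ∈ (Finset.Ioi a).erase i, (X b - X a)) := by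
      unfold Dl
      rw [← Finset.mul_prod_erase Finset.univ _ (Finset.mem_univ i)]
      congr 1
      have h2 : ∏ a ∈ Finset.Iio i, (X i - X a : Rx n) =
          ∏ a ∈ Finset.univ.erase i, if a < i then (X i - X a : Rx n) else 1 := by
        rw [← Finset.prod_filter]
        refine Finset.prod_congr ?_ fun _ _ => rfl
        ext a
        simp only [Finset.mem_Iio, Finset.mem_filter, Finset.mem_erase, Finset.mem_univ, and_true]
        exact ⟨fun h => ⟨h.ne, h⟩, fun h => h.2⟩
      rw [h2, ← Finset.prod_mul_distrib]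
      refine Finset.prod_congr rfl fun a ha => ?_
      split_ifs with h3
      · rw [Finset.mul_prod_erase (Finset.Ioi a) (fun b => (X b - X a : Rx n))
          (Finset.mem_Ioi.2 h3)]
      · rw [one_mul, Finset.erase_eq_of_notMem (by rwa [Finset.mem_Ioi])]
    have h3 : ff n i = (∏ a ∈ Finset.Iio i, (X i - X a)) *
        ((-1) ^ (Finset.Ioi i).card * ∏ b ∈ Finset.Ioi i, (X b - X i)) := by
      unfold ff
      have h4 : (Finset.univ.erase i : Finset (Fin n)) = Finset.Iio i ∪ Finset.Ioi i := by
        ext a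
        simp only [Finset.mem_erase, Finset.mem_univ, and_true, Finset.mem_union, Finset.mem_Iio,
          Finset.mem_Ioi]
        exact ⟨fun h => lt_or_gt_of_ne h, fun h => h.elim (fun h => h.ne) fun h => h.ne'⟩
      rw [h4, Finset.prod_union]
      · congr 1
        rw [← Finset.prod_const, ← Finset.prod_mul_distrib]
        refine Finset.prod_congr rfl fun b _ => ?_
        ring
      · rw [Finset.disjoint_left]
        intro a h5 h6
        rw [Finset.mem_Iio] at h5
        rw [Finset.mem_Ioi] at h6
        exact absurd h5 h6.le.not_gt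
    rw [h1, h3]
    have h5 : ((-1 : Rx n)) ^ ((Finset.Ioi i).card + 1) * (-1) ^ (Finset.Ioi i).card = -1 := by
      rw [← pow_add]
      exact Odd.neg_one_pow ⟨(Finset.Ioi i).card, by ring⟩
    linear_combination (∏ a ∈ Finset.univ.erase i, ∏ b ∈ (Finset.Ioi a).erase i,
      (X b - X a : Rx n)) * (∏ a ∈ Finset.Iio i, (X i - X a)) *
        (∏ b ∈ Finset.Ioi i, (X b - X i)) * h5
  · have hp : pderiv i (∏ a ∈ Finset.univ.erase i, ∏ b ∈ (Finset.Ioi a).erase i,
        (X b - X a : Rx n)) = 0 := by
      refine Finset.prod_induction _ (fun P : Rx n => pderiv i P = 0) ?_ ?_ ?_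
      · intro P Q hP hQ
        rw [Derivation.leibniz, hP, hQ, smul_zero, smul_zero, add_zero]
      · exact Derivation.map_one_eq_zero _
      · intro a ha
        refine Finset.prod_induction _ (fun P : Rx n => pderiv i P = 0) ?_ ?_ ?_
        · intro P Q hP hQ
          rw [Derivation.leibniz, hP, hQ, smul_zero, smul_zero, add_zero]
        · exact Derivation.map_one_eq_zero _
        · intro b hb
          rw [map_sub, pderiv_X, pderiv_X, Pi.single_apply, Pi.single_apply,
            if_neg (Finset.ne_of_mem_erase ha), if_neg (Finset.ne_of_mem_erase hb), sub_zero]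
    rw [Derivation.leibniz, hp, smul_zero, zero_add]
    have h6 : pderiv i ((-1 : Rx n) ^ ((Finset.Ioi i).card + 1)) = 0 := by
      rw [Derivation.leibniz_pow, Derivation.map_neg, Derivation.map_one_eq_zero, neg_zero,
        smul_zero, smul_zero]
    rw [h6, smul_zero]

theorem Dl_ne (n : ℕ) : Dl n ≠ 0 := by
  unfold Dl
  refine Finset.prod_ne_zero_iff.2 fun i _ => Finset.prod_ne_zero_iff.2 fun j hj => ?_
  rw [Finset.mem_Ioi] at hj
  intro h
  rw [sub_eq_zero] at h
  exact hj.ne' (X_injective h)

theorem chain (n : ℕ) (z : ℂ) (i : Fin n) (g : MvPolynomial (Fin n) ℂ) :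
    pderiv i (sh n z g) = ∑ j : Fin n, pderiv i ((hx n z).coeff j) * sh n z (pderiv j g) := by
  induction g using MvPolynomial.induction_on with
  | C a =>
    rw [algHom_C, ← C_eq_algebraMap, pderiv_C]
    symm
    refine Finset.sum_eq_zero fun j _ => ?_
    rw [pderiv_C, map_zero, mul_zero]
  | add p q hp hq =>
    rw [map_add, map_add, hp, hq, ← Finset.sum_add_distrib]
    refine Finset.sum_congr rfl fun j _ => ?_
    rw [map_add, map_add, mul_add]
  | mul_X p k hp =>
    rw [map_mul, Derivation.leibniz, hp, smul_eq_mul, smul_eq_mul]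
    have h1 : sh n z (X k) = (hx n z).coeff k := by
      unfold sh
      rw [aeval_X]
    rw [h1]
    have h2 : ∀ j, sh n z (pderiv j (p * X k)) =
        sh n z p * (if k = j then 1 else 0) + (hx n z).coeff k * sh n z (pderiv j p) := by
      intro j
      rw [Derivation.leibniz, map_add, smul_eq_mul, smul_eq_mul, map_mul, map_mul, h1, pderiv_X,
        Pi.single_apply]
      congr 2
      split_ifs with h3
      · exact map_one _
      · exact map_zero _
    simp_rw [h2, mul_add, Finset.sum_add_distrib, Finset.mul_sum]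
    congr 1
    · rw [Finset.sum_eq_single k]
      · rw [if_pos rfl]
        ring
      · intro j _ hj
        rw [if_neg (Ne.symm hj), mul_zero, mul_zero]
      · intro h
        exact absurd (Finset.mem_univ _) h
    · refine Finset.sum_congr rfl fun j _ => ?_
      ring

end Mt

open Mt

theorem t_Mat : StmMat := by
  classical
  intro n z
  choose d hd1 hd2 using exists_dl n
  have hBA : (Matrix.of fun i j : Fin n => - (RR n z i).coeff j) *
      (Matrix.of fun j i : Fin n => tt n z i ^ (j : ℕ) * d i) = Dl n • (1 : Matrix (Fin n) (Fin n) (Rx n)) := by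
    ext1 i i'
    rw [Matrix.mul_apply, Matrix.smul_apply, Matrix.one_apply]
    simp only [Matrix.of_apply]
    have h1 : ∑ j : Fin n, -(RR n z i).coeff j * (tt n z i' ^ (j : ℕ) * d i') =
        - (∑ j : Fin n, (RR n z i).coeff j * tt n z i' ^ (j : ℕ)) * d i' := by
      rw [neg_mul, Finset.sum_mul, ← Finset.sum_neg_distrib]
      refine Finset.sum_congr rfl fun j _ => ?_
      ring
    rw [h1, eval_RR]
    split_ifs with h
    · subst h
      rw [smul_eq_mul, mul_one]
      linear_combination - hd1 i
    · rw [neg_zero, zero_mul, smul_zero]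
  set Bm : Matrix (Fin n) (Fin n) (Rx n) := Matrix.of fun i j : Fin n => - (RR n z i).coeff j
    with hBm
  set Am : Matrix (Fin n) (Fin n) (Rx n) := Matrix.of fun j i : Fin n => tt n z i ^ (j : ℕ) * d i
    with hAm
  have hdet : Am.det ≠ 0 := by
    intro h
    have h1 := congrArg Matrix.det hBA
    rw [Matrix.det_mul, h, mul_zero, Matrix.det_smul, Matrix.det_one, mul_one] at h1
    exact pow_ne_zero _ (Dl_ne n) h1.symm
  have hAB : Am * Bm = Dl n • (1 : Matrix (Fin n) (Fin n) (Rx n)) := by
    have h1 : (Am * Bm - Dl n • 1) * Am = 0 := by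
      rw [Matrix.sub_mul, Matrix.mul_assoc, hBA, Matrix.mul_smul, Matrix.smul_mul, Matrix.mul_one,
        Matrix.one_mul, sub_self]
    have h2 : (Am * Bm - Dl n • 1) * (Am * Am.adjugate) = 0 := by
      rw [← Matrix.mul_assoc, h1, Matrix.zero_mul]
    rw [Matrix.mul_adjugate, Matrix.mul_smul, Matrix.mul_one] at h2
    exact sub_eq_zero.1 ((smul_eq_zero.1 h2).resolve_left hdet)
  have hABe : ∀ j j', ∑ i, Am j i * Bm i j' = if j = j' then Dl n else 0 := by
    intro j j'
    have h1 := congrFun (congrFun hAB j) j'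
    rw [Matrix.mul_apply, Matrix.smul_apply, Matrix.one_apply] at h1
    rw [h1]
    split_ifs
    · rw [smul_eq_mul, mul_one]
    · rw [smul_zero]
  refine ⟨fun j i => tt n z i ^ (j : ℕ) * d i, ?_, ?_⟩
  · intro j g
    have h1 : ∑ i, (tt n z i ^ (j : ℕ) * d i) * pderiv i (sh n z g) =
        ∑ j', (∑ i, Am j i * Bm i j') * sh n z (pderiv j' g) := by
      simp_rw [Finset.sum_mul]
      rw [Finset.sum_comm]
      refine Finset.sum_congr rfl fun i _ => ?_
      rw [chain, Finset.mul_sum]
      refine Finset.sum_congr rfl fun j' _ => ?_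
      rw [pderiv_hx, hBm, hAm]
      simp only [Matrix.of_apply]
      ring
    rw [h1]
    simp_rw [hABe]
    rw [Finset.sum_eq_single j]
    · rw [if_pos rfl]
    · intro j' _ hj
      rw [if_neg (Ne.symm hj), zero_mul]
    · intro h
      exact absurd (Finset.mem_univ _) h
  · intro j
    have h1 : ∀ i, pderiv i (tt n z i ^ (j : ℕ) * d i) =
        ((j : ℕ) : Rx n) * (tt n z i ^ ((j : ℕ) - 1) * d i) := by
      intro i
      have h2 : pderiv i (tt n z i) = 1 := by
        unfold tt
        rw [map_add, pderiv_C, add_zero, pderiv_X, Pi.single_apply, if_pos rfl]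
      rw [Derivation.leibniz, hd2, smul_zero, zero_add, Derivation.leibniz_pow, h2]
      simp only [smul_eq_mul, mul_one, nsmul_eq_mul]
      ring
    simp_rw [h1]
    rw [← Finset.mul_sum]
    rcases Nat.eq_zero_or_pos (j : ℕ) with h | h
    · rw [h, Nat.cast_zero, zero_mul]
    · have hn : n - 1 < n := by have := j.2; omega
      have hj1 : (j : ℕ) - 1 < n := by have := j.2; omega
      have h3 := hABe ⟨(j : ℕ) - 1, hj1⟩ ⟨n - 1, hn⟩
      rw [if_neg (by rw [Fin.mk.injEq]; have := j.2; omega)] at h3
      have h4 : ∀ i, Bm i ⟨n - 1, hn⟩ = -1 := by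
        intro i
        rw [hBm]
        simp only [Matrix.of_apply]
        have h5 := (monic_RR n z i).coeff_natDegree
        rw [natDegree_RR] at h5
        rw [h5]
      simp_rw [h4] at h3
      have h6 : ∑ i, tt n z i ^ ((j : ℕ) - 1) * d i = 0 := by
        have h7 : ∑ i, Am ⟨(j : ℕ) - 1, hj1⟩ i * (-1) =
            - ∑ i, tt n z i ^ ((j : ℕ) - 1) * d i := by
          rw [← Finset.sum_neg_distrib]
          refine Finset.sum_congr rfl fun i _ => ?_
          rw [hAm]
          simp only [Matrix.of_apply]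
          ring
        rw [h7] at h3
        exact neg_eq_zero.1 h3
      rw [h6, mul_zero]

end Pool.Agent.K3h15.DM
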