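import Pool.Agent.K3h15.DM.Base

/-! # Multiplicativity and vanishing of `Ex` -/

set_option autoImplicit false

namespace Pool.Agent.K3h15.DM

open MvPolynomial

theorem poly_eq {P Q : Polynomial ℂ} (M : ℕ)
    (h : ∀ s : ℕ, M ≤ s → P.eval (s : ℂ) = Q.eval (s : ℂ)) : P = Q := by
  apply Polynomial.eq_of_infinite_eval_eq
  have h1 : ((fun s : ℕ => (s : ℂ)) '' Set.Ici M).Infinite :=
    (Set.Ici_infinite M).image (fun a _ b _ hab => Nat.cast_injective hab)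
  refine h1.mono ?_
  rintro _ ⟨s, hs, rfl⟩
  exact h s hs

section

variable {n : ℕ} {DD : Fin n → Fin n → (Rx n →ₗ[ℂ] Rx n)}

/-- multiplicativity, at half-integers and natural numbers -/
theorem mult_nat (hDD : IsDD DD) (hFun : StmFun) (hExp : StmExp) (hD2 : Sym (Dl n ^ 2))
    {l : ℝ} (hl : 0 < l) (i j : ℕ) {p : Rx n} (hp : Sym p) {N N1 N2 : ℕ}
    (hN : (Dl n ^ (2 * i) * Yp n ^ j * p).totalDegree ≤ N)
    (hN1 : (Dl n ^ (2 * i) * Yp n ^ j).totalDegree ≤ N1) (hN2 : p.totalDegree ≤ N2) (k v : ℕ) :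
    Ex DD l N ((k : ℂ) + 1 / 2) v (Dl n ^ (2 * i) * Yp n ^ j * p) =
      Ex DD l N1 ((k : ℂ) + 1 / 2) v (Dl n ^ (2 * i) * Yp n ^ j) *
        Ex DD l N2 ((k : ℂ) + 1 / 2 + i) ((v : ℂ) + j) p := by
  obtain ⟨G, hG⟩ := hFun n l hl
  have hs : Sym (Dl n ^ (2 * i) * Yp n ^ j) := by
    rw [pow_mul]
    exact sym_mul (sym_pow hD2 i) (sym_pow (sym_Yp n) j)
  have e1 := hExp n DD hDD l G hl hG k v N _ (sym_mul hs hp) hN
  have e2 := hExp n DD hDD l G hl hG k v N1 _ hs hN1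
  have e3 := hExp n DD hDD l G hl hG (k + i) (v + j) N2 _ hp hN2
  have h1 : Dl n ^ (2 * k + 1) * Yp n ^ v * (Dl n ^ (2 * i) * Yp n ^ j * p) =
      Dl n ^ (2 * (k + i) + 1) * Yp n ^ (v + j) * p := by ring
  have h2 : Dl n ^ (2 * k + 1) * Yp n ^ v * (Dl n ^ (2 * i) * Yp n ^ j) =
      Dl n ^ (2 * (k + i) + 1) * Yp n ^ (v + j) := by ring
  rw [h1, e3] at e1
  rw [h2] at e2
  rw [e2] at e1
  have h3 := hG.2 k v
  have h4 : (((k + i : ℕ) : ℂ) + 1 / 2) = (k : ℂ) + 1 / 2 + i := by push_cast; ring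
  have h5 : (((v + j : ℕ)) : ℂ) = (v : ℂ) + j := by push_cast; ring
  rw [h4, h5, mul_assoc] at e1
  exact (mul_left_cancel₀ h3 e1).symm

/-- multiplicativity -/
theorem mult (hDD : IsDD DD) (hFun : StmFun) (hExp : StmExp) (hPol : StmPol)
    (hD2 : Sym (Dl n ^ 2)) {l : ℝ} (hl : 0 < l) (i j : ℕ) {p : Rx n} (hp : Sym p) {N N1 N2 : ℕ}
    (hN : (Dl n ^ (2 * i) * Yp n ^ j * p).totalDegree ≤ N)
    (hN1 : (Dl n ^ (2 * i) * Yp n ^ j).totalDegree ≤ N1) (hN2 : p.totalDegree ≤ N2) (κ α : ℂ) :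
    Ex DD l N κ α (Dl n ^ (2 * i) * Yp n ^ j * p) =
      Ex DD l N1 κ α (Dl n ^ (2 * i) * Yp n ^ j) * Ex DD l N2 (κ + i) (α + j) p := by
  have h0 := mult_nat hDD hFun hExp hD2 hl i j hp hN hN1 hN2
  -- in the direction of `κ`
  have h1 : ∀ (κ : ℂ) (v : ℕ), Ex DD l N κ v (Dl n ^ (2 * i) * Yp n ^ j * p) =
      Ex DD l N1 κ v (Dl n ^ (2 * i) * Yp n ^ j) * Ex DD l N2 (κ + i) ((v : ℂ) + j) p := by
    intro κ v
    obtain ⟨P1, hP1⟩ := (hPol n DD l N (Dl n ^ (2 * i) * Yp n ^ j * p)).1 1 (1 / 2) 0 v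
    obtain ⟨P2, hP2⟩ := (hPol n DD l N1 (Dl n ^ (2 * i) * Yp n ^ j)).1 1 (1 / 2) 0 v
    obtain ⟨P3, hP3⟩ := (hPol n DD l N2 p).1 1 (1 / 2 + i) 0 ((v : ℂ) + j)
    have h2 : P1 = P2 * P3 := by
      refine poly_eq 0 fun s _ => ?_
      rw [Polynomial.eval_mul, hP1, hP2, hP3]
      have h3 : (1 : ℂ) * (s : ℂ) + (1 / 2 + i) = (s : ℂ) + 1 / 2 + i := by ring
      rw [h3, one_mul, zero_mul, zero_add, zero_add]
      exact h0 s v
    have h4 := congrArg (fun P : Polynomial ℂ => P.eval (κ - 1 / 2)) h2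
    simp only [Polynomial.eval_mul] at h4
    rw [hP1, hP2, hP3] at h4
    have h5 : (1 : ℂ) * (κ - 1 / 2) + (1 / 2 + i) = κ + i := by ring
    rw [h5, one_mul, sub_add_cancel, zero_mul, zero_add, zero_add] at h4
    exact h4
  obtain ⟨P1, hP1⟩ := (hPol n DD l N (Dl n ^ (2 * i) * Yp n ^ j * p)).1 0 κ 1 0
  obtain ⟨P2, hP2⟩ := (hPol n DD l N1 (Dl n ^ (2 * i) * Yp n ^ j)).1 0 κ 1 0
  obtain ⟨P3, hP3⟩ := (hPol n DD l N2 p).1 0 (κ + i) 1 j
  have h2 : P1 = P2 * P3 := by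
    refine poly_eq 0 fun s _ => ?_
    rw [Polynomial.eval_mul, hP1, hP2, hP3]
    rw [zero_mul, zero_add, zero_add, one_mul, add_zero]
    exact h1 κ s
  have h4 := congrArg (fun P : Polynomial ℂ => P.eval α) h2
  simp only [Polynomial.eval_mul] at h4
  rw [hP1, hP2, hP3, zero_mul, zero_add, zero_add, one_mul, add_zero] at h4
  exact h4

theorem cc_aeval (g : Fin n → Rx n) (hg : ∀ i, constantCoeff (g i) = 0) (q : Rx n) :
    constantCoeff (aeval g q) = constantCoeff q := by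
  have h : ((constantCoeff : Rx n →+* ℂ).comp (aeval g : Rx n →ₐ[ℂ] Rx n).toRingHom) =
      constantCoeff := by
    apply MvPolynomial.ringHom_ext
    · intro c
      simp
    · intro i
      simp [hg i]
  exact congrArg (fun t : Rx n →+* ℂ => t q) h

/-- the vanishing of `Ex` for `p` in an ideal which is preserved by `L` -/
theorem van_gen (hDD : IsDD DD) (hL : StmL) {κ α : ℂ} (g : Fin n → Rx n)
    (hg : ∀ i, constantCoeff (g i) = 0)
    (hV : ∀ p : Rx n, Sym p → aeval g p = 0 → aeval g (L DD κ α p) = 0)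
    {p : Rx n} (hp : Sym p) (h0 : aeval g p = 0) (l : ℝ) (N : ℕ) : Ex DD l N κ α p = 0 := by
  have h1 : ∀ d : ℕ, Sym ((L DD κ α)^[d] p) ∧ aeval g ((L DD κ α)^[d] p) = 0 := by
    intro d
    induction d with
    | zero => exact ⟨hp, h0⟩
    | succ d ih =>
      rw [Function.iterate_succ_apply']
      exact ⟨(hL n DD hDD κ α _ ih.1).1, hV _ ih.1 ih.2⟩
  rw [Ex]
  refine Finset.sum_eq_zero fun d _ => ?_
  rw [← cc_aeval g hg, (h1 d).2, map_zero, mul_zero]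

theorem Dl_van (g : Fin n → Rx n) (i j : Fin n) (hij : i < j) (h : g i = g j) :
    aeval g (Dl n) = 0 := by
  rw [Dl, map_prod]
  refine Finset.prod_eq_zero (Finset.mem_univ i) ?_
  rw [map_prod]
  refine Finset.prod_eq_zero (Finset.mem_Ioi.mpr hij) ?_
  simp [h]

theorem Yp_van (g : Fin n → Rx n) (i : Fin n) (h : g i = 0) :
    aeval g (Yp n) = 0 := by
  rw [Yp, map_prod]
  refine Finset.prod_eq_zero (Finset.mem_univ i) ?_
  simp [h]

/-- vanishing, first type -/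
theorem van_one (hDD : IsDD DD) (hL : StmL) (hV1 : StmV1) (hFun : StmFun) (hExp : StmExp)
    (hPol : StmPol) (hD2 : Sym (Dl n ^ 2)) {l : ℝ} (hl : 0 < l) {m : ℕ} (hm : 2 ≤ m) (hmn : m ≤ n)
    {a b i : ℕ} (hi : i < a) {κ α : ℂ} (hκ : 1 + (κ + i) * m = 0) {p : Rx n} (hp : Sym p) {N : ℕ}
    (hN : (Dl n ^ (2 * a) * Yp n ^ b * p).totalDegree ≤ N) :
    Ex DD l N κ α (Dl n ^ (2 * a) * Yp n ^ b * p) = 0 := by
  have h1 : Dl n ^ (2 * a) * Yp n ^ b * p = Dl n ^ (2 * i) * Yp n ^ 0 *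
      ((Dl n ^ 2) ^ (a - i) * Yp n ^ b * p) := by
    have : a = i + (a - i) := by omega
    conv_lhs => rw [this]
    ring
  have hs : Sym ((Dl n ^ 2) ^ (a - i) * Yp n ^ b * p) :=
    sym_mul (sym_mul (sym_pow hD2 _) (sym_pow (sym_Yp n) b)) hp
  rw [h1] at hN ⊢
  rw [mult hDD hFun hExp hPol hD2 hl i 0 hs hN le_rfl le_rfl]
  have h0 : 0 < n := by omega
  rw [van_gen hDD hL (fun i : Fin n => if (i : ℕ) < m then (X ⟨0, h0⟩ : Rx n) else X i) ?_
    (fun q hq hq0 => hV1 n DD hDD m hm hmn _ _ hκ h0 q hq hq0) hs ?_, mul_zero]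
  · intro i
    split_ifs <;> simp
  · rw [map_mul, map_mul, map_pow, map_pow, Dl_van _ (⟨0, h0⟩ : Fin n) ⟨1, by omega⟩
      (by simp [Fin.lt_def]) (by simp; omega), zero_pow two_ne_zero, zero_pow (by omega),
      zero_mul, zero_mul]

/-- vanishing, second type -/
theorem van_two (hDD : IsDD DD) (hL : StmL) (hV2 : StmV2) (hFun : StmFun) (hExp : StmExp)
    (hPol : StmPol) (hD2 : Sym (Dl n ^ 2)) {l : ℝ} (hl : 0 < l) {m : ℕ} (hm : 1 ≤ m) (hmn : m ≤ n)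
    {a b i j : ℕ} (hi : i ≤ a) (hj : j ≤ b) (hij : j < b ∨ (2 ≤ m ∧ i < a)) {κ α : ℂ}
    (hκ : (α + j) + 1 + (κ + i) * (m - 1) = 0) {p : Rx n} (hp : Sym p) {N : ℕ}
    (hN : (Dl n ^ (2 * a) * Yp n ^ b * p).totalDegree ≤ N) :
    Ex DD l N κ α (Dl n ^ (2 * a) * Yp n ^ b * p) = 0 := by
  have h1 : Dl n ^ (2 * a) * Yp n ^ b * p = Dl n ^ (2 * i) * Yp n ^ j *
      ((Dl n ^ 2) ^ (a - i) * Yp n ^ (b - j) * p) := by
    have e1 : a = i + (a - i) := by omega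
    have e2 : b = j + (b - j) := by omega
    conv_lhs => rw [e1, e2]
    ring
  have hs : Sym ((Dl n ^ 2) ^ (a - i) * Yp n ^ (b - j) * p) :=
    sym_mul (sym_mul (sym_pow hD2 _) (sym_pow (sym_Yp n) _)) hp
  rw [h1] at hN ⊢
  rw [mult hDD hFun hExp hPol hD2 hl i j hs hN le_rfl le_rfl]
  have h0 : 0 < n := by omega
  rw [van_gen hDD hL (fun i : Fin n => if (i : ℕ) < m then (0 : Rx n) else X i) ?_
    (fun q hq hq0 => hV2 n DD hDD m hm hmn _ _ hκ q hq hq0) hs ?_, mul_zero]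
  · intro i
    split_ifs <;> simp
  · rcases hij with h | ⟨h2, h3⟩
    · rw [map_mul, map_mul, map_pow, map_pow _ (Yp n), Yp_van _ (⟨0, h0⟩ : Fin n)
        (by simp; omega), zero_pow (M₀ := Rx n) (n := b - j) (by omega), mul_zero, zero_mul]
    · rw [map_mul, map_mul, map_pow, map_pow, Dl_van _ (⟨0, h0⟩ : Fin n) ⟨1, by omega⟩
        (by simp [Fin.lt_def]) (by
          have e1 : (0 : ℕ) < m := by omega
          have e2 : (1 : ℕ) < m := by omega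
          simp [e1, e2]), zero_pow two_ne_zero, zero_pow (by omega),
        zero_mul, zero_mul]

/-- `Ex` is a polynomial in `l` -/
theorem Ex_l (DD : Fin n → Fin n → (Rx n →ₗ[ℂ] Rx n)) (N : ℕ) (κ α : ℂ) (p : Rx n) :
    ∃ P : Polynomial ℂ, (∀ l : ℝ, P.eval (l : ℂ) = Ex DD l N κ α p) ∧
      P.eval 0 = constantCoeff p := by
  refine ⟨∑ d ∈ Finset.range (N + 1), Polynomial.C (constantCoeff ((L DD κ α)^[d] p) /
    (d.factorial : ℂ)) * Polynomial.X ^ d, fun l => ?_, ?_⟩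
  · rw [Polynomial.eval_finsetSum, Ex]
    refine Finset.sum_congr rfl fun d _ => ?_
    rw [Polynomial.eval_mul, Polynomial.eval_C, Polynomial.eval_pow, Polynomial.eval_X]
    ring
  · rw [Polynomial.eval_finsetSum, Finset.sum_eq_single 0]
    · simp
    · intro d _ hd
      simp [hd]
    · intro h
      simp at h

end

end Pool.Agent.K3h15.DM
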