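import Pool.Agent.K3h15.DM.Stm

/-!
# Brick POL: `Ex` is a polynomial on lines
-/

set_option autoImplicit false

namespace Pool.Agent.K3h15.DM

open MvPolynomial

section

variable {n : ℕ} (DD : Fin n → Fin n → (Rx n →ₗ[ℂ] Rx n))

/-- the derivation `∂_i` as a linear map -/
noncomputable def pdL (i : Fin n) : Rx n →ₗ[ℂ] Rx n := (pderiv i : Derivation ℂ (Rx n) (Rx n))

/-- `A p = ∑ (x_i p_ii + p_i)` -/
noncomputable def La (n : ℕ) : Rx n →ₗ[ℂ] Rx n :=
  ∑ i, (LinearMap.mulLeft ℂ (X i : Rx n) ∘ₗ pdL i ∘ₗ pdL i + pdL i)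

/-- `B p = ∑ p_i` -/
noncomputable def Lb (n : ℕ) : Rx n →ₗ[ℂ] Rx n := ∑ i, pdL i

/-- `C p = ∑ DD_ij (x_i p_i)` -/
noncomputable def Lc : Rx n →ₗ[ℂ] Rx n :=
  ∑ i, ∑ j ∈ Finset.univ.erase i, DD i j ∘ₗ LinearMap.mulLeft ℂ (X i : Rx n) ∘ₗ pdL i

lemma L_eq (κ α : ℂ) (p : Rx n) : L DD κ α p = La n p + α • Lb n p + κ • Lc DD p := by
  unfold L La Lb Lc pdL
  simp only [LinearMap.sum_apply, LinearMap.add_apply, LinearMap.comp_apply,
    LinearMap.mulLeft_apply, Derivation.coeFn_coe, Finset.smul_sum]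
  simp only [add_smul, one_smul, Finset.sum_add_distrib]
  abel

lemma iter_line (a b c d : ℂ) (p : Rx n) (e : ℕ) :
    ∃ m : ℕ → Rx n, m e = (c • Lb n + a • Lc DD)^[e] p ∧
      ∀ s : ℂ, (L DD (a * s + b) (c * s + d))^[e] p = ∑ k ∈ Finset.range (e + 1), s ^ k • m k := by
  induction e with
  | zero => exact ⟨fun _ => p, rfl, fun s => by simp⟩
  | succ e ih =>
    obtain ⟨m, hm, h⟩ := ih
    set L0 : Rx n →ₗ[ℂ] Rx n := La n + d • Lb n + b • Lc DD with hL0
    set L1 : Rx n →ₗ[ℂ] Rx n := c • Lb n + a • Lc DD with hL1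
    have hL : ∀ (s : ℂ) (q : Rx n), L DD (a * s + b) (c * s + d) q = L0 q + s • L1 q := by
      intro s q
      rw [L_eq, hL0, hL1]
      simp only [LinearMap.add_apply, LinearMap.smul_apply, add_smul, smul_add, smul_smul,
        mul_comm s]
      abel
    refine ⟨fun k => (if k ≤ e then L0 (m k) else 0) + (if k = 0 then 0 else L1 (m (k - 1))), ?_,
      ?_⟩
    · simp only [Nat.not_succ_le_self, if_false, Nat.succ_ne_zero, zero_add, Nat.add_sub_cancel]
      rw [hm, Function.iterate_succ_apply']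
    · intro s
      rw [Function.iterate_succ_apply', h s, hL]
      simp only [smul_add, Finset.sum_add_distrib, map_sum, LinearMap.map_smul]
      congr 1
      · rw [Finset.sum_range_succ _ (e + 1)]
        simp only [Nat.not_succ_le_self, if_false, smul_zero, add_zero]
        refine Finset.sum_congr rfl fun k hk => ?_
        rw [if_pos (Nat.lt_succ_iff.mp (Finset.mem_range.mp hk))]
      · rw [Finset.sum_range_succ' _ (e + 1)]
        simp only [if_true, smul_zero, add_zero, Nat.succ_ne_zero, if_false, Nat.add_sub_cancel,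
          Finset.smul_sum, smul_smul, pow_succ, mul_comm s]

end

lemma constantCoeff_Lb {n : ℕ} (N : ℕ) : ∀ p : Rx n, p.IsHomogeneous N →
    constantCoeff ((Lb n)^[N] p) = (N.factorial : ℂ) * eval (fun _ => (1 : ℂ)) p := by
  induction N with
  | zero =>
    intro p hp
    rw [← totalDegree_zero_iff_isHomogeneous, totalDegree_eq_zero_iff_eq_C] at hp
    rw [hp]
    simp
  | succ N ih =>
    intro p hp
    have h1 : (Lb n p).IsHomogeneous N := by
      unfold Lb pdL
      rw [LinearMap.sum_apply]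
      refine IsHomogeneous.sum _ _ _ fun i _ => ?_
      exact hp.pderiv
    rw [Function.iterate_succ_apply, ih _ h1]
    have h2 : eval (fun _ => (1 : ℂ)) (Lb n p) = ((N + 1 : ℕ) : ℂ) * eval (fun _ => (1 : ℂ)) p := by
      have h3 := congrArg (eval (fun _ => (1 : ℂ))) hp.sum_X_mul_pderiv
      simp only [map_sum, map_mul, eval_X, one_mul, map_nsmul] at h3
      unfold Lb pdL
      rw [LinearMap.sum_apply, map_sum]
      simp only [Derivation.coeFn_coe]
      rw [h3, nsmul_eq_mul]
    rw [h2, Nat.factorial_succ]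
    push_cast
    ring

/-- the polynomial on the line, with its top coefficient -/
lemma Ex_line {n : ℕ} (DD : Fin n → Fin n → (Rx n →ₗ[ℂ] Rx n)) (l : ℝ) (N : ℕ) (p : Rx n)
    (a b c d : ℂ) : ∃ P : Polynomial ℂ,
      (∀ s : ℂ, P.eval s = Ex DD l N (a * s + b) (c * s + d) p) ∧
      P.coeff N = (l : ℂ) ^ N / (N.factorial : ℂ) *
        constantCoeff ((c • Lb n + a • Lc DD)^[N] p) := by
  choose m hm h using iter_line DD a b c d p
  refine ⟨∑ e ∈ Finset.range (N + 1), Polynomial.C ((l : ℂ) ^ e / (e.factorial : ℂ)) *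
    ∑ k ∈ Finset.range (e + 1), Polynomial.C (constantCoeff (m e k)) * Polynomial.X ^ k, ?_, ?_⟩
  · intro s
    unfold Ex
    rw [Polynomial.eval_finsetSum]
    refine Finset.sum_congr rfl fun e _ => ?_
    rw [h e s, Polynomial.eval_mul, Polynomial.eval_C, Polynomial.eval_finsetSum, map_sum]
    congr 1
    refine Finset.sum_congr rfl fun k _ => ?_
    rw [Polynomial.eval_mul, Polynomial.eval_C, Polynomial.eval_pow, Polynomial.eval_X,
      smul_eq_C_mul, map_mul, constantCoeff_C, mul_comm]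
  · rw [Polynomial.finsetSum_coeff, Finset.sum_eq_single N]
    · rw [Polynomial.coeff_C_mul, Polynomial.finsetSum_coeff, Finset.sum_eq_single N]
      · rw [Polynomial.coeff_C_mul, Polynomial.coeff_X_pow_self, mul_one, hm]
      · intro k _ hk
        rw [Polynomial.coeff_C_mul, Polynomial.coeff_X_pow, if_neg (Ne.symm hk), mul_zero]
      · intro hk
        exact absurd (Finset.mem_range.mpr (Nat.lt_succ_self N)) hk
    · intro e he hne
      rw [Polynomial.coeff_C_mul, Polynomial.finsetSum_coeff]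
      rw [Finset.sum_eq_zero, mul_zero]
      intro k hk
      rw [Polynomial.coeff_C_mul, Polynomial.coeff_X_pow, if_neg, mul_zero]
      have := Finset.mem_range.mp hk
      have := Finset.mem_range.mp he
      omega
    · intro hk
      exact absurd (Finset.mem_range.mpr (Nat.lt_succ_self N)) hk

theorem t_Pol : StmPol := by
  intro n DD l N p
  refine ⟨fun a b c d => ?_, ?_⟩
  · obtain ⟨P, h, -⟩ := Ex_line DD l N p a b c d
    exact ⟨P, h⟩
  · intro κ hl _ hp h1
    obtain ⟨P, h, hc⟩ := Ex_line DD l N p 0 κ 1 0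
    have hP : P ≠ 0 := by
      intro h0
      rw [h0, Polynomial.coeff_zero, zero_smul, add_zero, one_smul] at hc
      rw [constantCoeff_Lb N p hp] at hc
      have hf : (N.factorial : ℂ) ≠ 0 := Nat.cast_ne_zero.mpr (Nat.factorial_ne_zero N)
      have hl' : (l : ℂ) ^ N ≠ 0 := pow_ne_zero _ (Complex.ofReal_ne_zero.mpr hl.ne')
      have : (l : ℂ) ^ N / (N.factorial : ℂ) *
          ((N.factorial : ℂ) * eval (fun _ => (1 : ℂ)) p) ≠ 0 :=
        mul_ne_zero (div_ne_zero hl' hf) (mul_ne_zero hf h1)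
      exact this hc.symm
    have hfin : {s : ℂ | P.IsRoot s}.Finite := by
      simpa using Polynomial.finite_setOfPred_isRoot hP
    refine (hfin.preimage (f := fun v : ℕ => (v : ℂ)) Nat.cast_injective.injOn).subset ?_
    intro v hv
    simp only [Set.mem_ofPred_eq] at hv
    simp only [Set.mem_preimage, Set.mem_ofPred_eq, Polynomial.IsRoot]
    rw [h v]
    simpa using hv

end Pool.Agent.K3h15.DM
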