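import Pool.Agent.H628R4.TP.Defs

/-!
# Discriminants and b-functions: definitions and statements of the steps

`Rx n` is the ring of polynomials in the roots `x_i` of a monic polynomial `h` of degree `n`, and the
ring of polynomials in the coefficients `a_j` of `h` is also `MvPolynomial (Fin n) ℂ`.
-/

set_option autoImplicit false

namespace Pool.Agent.K3h15.DM

open MvPolynomial

/-- polynomials in the roots `x_0, ..., x_(n-1)` -/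
abbrev Rx (n : ℕ) : Type := MvPolynomial (Fin n) ℂ

/-- the monic polynomial `∏ (T - (x_i + z))` -/
noncomputable def hx (n : ℕ) (z : ℂ) : Polynomial (Rx n) :=
  ∏ i, (Polynomial.X - Polynomial.C (X i + C z))

/-- a polynomial `g` in the coefficients, taken at the coefficients of `∏ (T - (x_i + z))` -/
noncomputable def sh (n : ℕ) (z : ℂ) : MvPolynomial (Fin n) ℂ →ₐ[ℂ] Rx n :=
  aeval (fun j : Fin n => (hx n z).coeff j)

/-- `∏_{i < j} (x_j - x_i)` -/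
noncomputable def Dl (n : ℕ) : Rx n := ∏ i : Fin n, ∏ j ∈ Finset.Ioi i, (X j - X i)

/-- `∏ x_i` -/
noncomputable def Yp (n : ℕ) : Rx n := ∏ i, X i

/-- symmetric polynomials -/
def Sym {n : ℕ} (p : Rx n) : Prop := ∀ σ : Equiv.Perm (Fin n), rename σ p = p

/-! ### Brick MAT: derivatives with respect to the coefficients -/

/-- `A j i` is `± (x_i + z) ^ j ∏_{a < b, a, b ≠ i} (x_b - x_a)` -/
def StmMat : Prop := ∀ (n : ℕ) (z : ℂ), ∃ A : Fin n → Fin n → Rx n,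
  (∀ j g, Dl n * sh n z (pderiv j g) = ∑ i, A j i * pderiv i (sh n z g)) ∧
  (∀ j, ∑ i, pderiv i (A j i) = 0)

/-! ### Brick DD: divided differences and the operator `L` -/

/-- `DD i j` is the divided difference `(p - s_ij p) / (x_i - x_j)` -/
def IsDD {n : ℕ} (DD : Fin n → Fin n → (Rx n →ₗ[ℂ] Rx n)) : Prop :=
  ∀ i j, i ≠ j → ∀ p, (X i - X j) * DD i j p = p - rename (Equiv.swap i j) p

/-- brick DD1 -/
def StmDD : Prop := ∀ n : ℕ, ∃ DD : Fin n → Fin n → (Rx n →ₗ[ℂ] Rx n), IsDD DD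

/-- the operator `L p = ∑_i (x_i ∂_i ∂_i p + (α + 1) ∂_i p) + κ ∑_{i ≠ j} DD_ij (x_i ∂_i p)` -/
noncomputable def L {n : ℕ} (DD : Fin n → Fin n → (Rx n →ₗ[ℂ] Rx n)) (κ α : ℂ) (p : Rx n) : Rx n :=
  ∑ i, (X i * pderiv i (pderiv i p) + (α + 1) • pderiv i p) +
    κ • ∑ i, ∑ j ∈ Finset.univ.erase i, DD i j (X i * pderiv i p)

/-- brick DD2: `L` preserves the symmetric polynomials and lowers the degree by one -/
def StmL : Prop := ∀ (n : ℕ) (DD : Fin n → Fin n → (Rx n →ₗ[ℂ] Rx n)), IsDD DD →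
  ∀ (κ α : ℂ) (p : Rx n), Sym p → Sym (L DD κ α p) ∧
    (∀ d, p.IsHomogeneous (d + 1) → (L DD κ α p).IsHomogeneous d) ∧
    (p.IsHomogeneous 0 → L DD κ α p = 0)

/-- brick DD3: the derivatives of `Δ` -/
def StmDl : Prop := ∀ (n : ℕ) (DD : Fin n → Fin n → (Rx n →ₗ[ℂ] Rx n)), IsDD DD →
  ∀ p : Rx n, Sym p → 2 * ∑ i, X i * pderiv i p * pderiv i (Dl n) =
    Dl n * ∑ i, ∑ j ∈ Finset.univ.erase i, DD i j (X i * pderiv i p)

/-! ### Brick VAN: vanishing conditions -/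

/-- brick VAN1: `L` preserves the symmetric polynomials which vanish if `m` of the variables
coincide, for `κ = - 1 / m` -/
def StmV1 : Prop := ∀ (n : ℕ) (DD : Fin n → Fin n → (Rx n →ₗ[ℂ] Rx n)), IsDD DD →
  ∀ (m : ℕ), 2 ≤ m → m ≤ n → ∀ κ α : ℂ, 1 + κ * m = 0 → ∀ (h0 : 0 < n) (p : Rx n), Sym p →
    aeval (fun i : Fin n => if (i : ℕ) < m then (X ⟨0, h0⟩ : Rx n) else X i) p = 0 →
    aeval (fun i : Fin n => if (i : ℕ) < m then (X ⟨0, h0⟩ : Rx n) else X i) (L DD κ α p) = 0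

/-- brick VAN2: `L` preserves the symmetric polynomials which vanish if `m` of the variables
are zero, for `α + 1 + κ (m - 1) = 0` -/
def StmV2 : Prop := ∀ (n : ℕ) (DD : Fin n → Fin n → (Rx n →ₗ[ℂ] Rx n)), IsDD DD →
  ∀ (m : ℕ), 1 ≤ m → m ≤ n → ∀ κ α : ℂ, α + 1 + κ * (m - 1) = 0 → ∀ p : Rx n, Sym p →
    aeval (fun i : Fin n => if (i : ℕ) < m then (0 : Rx n) else X i) p = 0 →
    aeval (fun i : Fin n => if (i : ℕ) < m then (0 : Rx n) else X i) (L DD κ α p) = 0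

/-! ### Brick FUN: the functional -/

/-- integration of polynomials against `exp (- ∑ x_i / l)` over `0 < x_0 < x_1 < ... < x_(n-1)`:
integration by parts, and positivity -/
def IsFun {n : ℕ} (l : ℝ) (G : Rx n →ₗ[ℂ] ℂ) : Prop :=
  (∀ (i : Fin n) (u : Rx n),
    (∀ k : Fin n, (k : ℕ) + 1 = i → X i - X k ∣ u) → ((i : ℕ) = 0 → X i ∣ u) →
    (∀ k : Fin n, (i : ℕ) + 1 = k → X k - X i ∣ u) → (l : ℂ) * G (pderiv i u) = G u) ∧
  ∀ k v : ℕ, G (Dl n ^ (2 * k + 1) * Yp n ^ v) ≠ 0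

/-- brick FUN -/
def StmFun : Prop := ∀ (n : ℕ) (l : ℝ), 0 < l → ∃ G : Rx n →ₗ[ℂ] ℂ, IsFun l G

/-! ### Brick EXP: the values of the functional on symmetric polynomials -/

/-- `∑_{d ≤ N} l ^ d / d! (L ^ d p) (0)` -/
noncomputable def Ex {n : ℕ} (DD : Fin n → Fin n → (Rx n →ₗ[ℂ] Rx n)) (l : ℝ) (N : ℕ) (κ α : ℂ)
    (p : Rx n) : ℂ :=
  ∑ d ∈ Finset.range (N + 1), (l : ℂ) ^ d / (d.factorial : ℂ) *
    constantCoeff ((L DD κ α)^[d] p)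

/-- brick EXP: `G (Δ ^ (2 k + 1) Y ^ v p) = G (Δ ^ (2 k + 1) Y ^ v) Ex p` for symmetric `p` -/
def StmExp : Prop := ∀ (n : ℕ) (DD : Fin n → Fin n → (Rx n →ₗ[ℂ] Rx n)), IsDD DD →
  ∀ (l : ℝ) (G : Rx n →ₗ[ℂ] ℂ), 0 < l → IsFun l G → ∀ (k v N : ℕ) (p : Rx n), Sym p →
    p.totalDegree ≤ N →
    G (Dl n ^ (2 * k + 1) * Yp n ^ v * p) =
      G (Dl n ^ (2 * k + 1) * Yp n ^ v) * Ex DD l N ((k : ℂ) + 1 / 2) v p

/-- brick POL: on lines `Ex` is a polynomial; a lower bound for the degree for `p = Y ^ r` -/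
def StmPol : Prop := ∀ (n : ℕ) (DD : Fin n → Fin n → (Rx n →ₗ[ℂ] Rx n)) (l : ℝ) (N : ℕ)
  (p : Rx n),
  (∀ a b c d : ℂ, ∃ P : Polynomial ℂ, ∀ s : ℂ, P.eval s = Ex DD l N (a * s + b) (c * s + d) p) ∧
  (∀ κ : ℂ, 0 < l → p.totalDegree ≤ N → p.IsHomogeneous N → eval (fun _ => (1 : ℂ)) p ≠ 0 →
    {v : ℕ | Ex DD l N κ v p = 0}.Finite)

/-! ### Brick ADJ: operators of the Weyl algebra -/

open Pool.Agent.H628R4.TP (weylS)

/-- the abstract integration by parts: `Λ (∂_j H) = Λ (w_j H)` if `F Y` divides `H` -/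
def IsIBP {n : ℕ} (F Y : MvPolynomial (Fin n) ℂ) (w : Fin n → MvPolynomial (Fin n) ℂ)
    (Λ : MvPolynomial (Fin n) ℂ →ₗ[ℂ] ℂ) : Prop :=
  ∀ j H, F * Y ∣ H → Λ (pderiv j H) = Λ (w j * H)

/-- brick ADJ: for `Q` in the Weyl algebra and all large `m`: if `F ^ m ∣ H` and (`Y ^ m ∣ H` or
`Y ^ m ∣ v`), then `Q (u ^ (s + m) H)` is `u ^ s` times a polynomial `W`, and
`Λ (v W) = Λ ((∑_k s ^ k B_k v) H)`, with linear maps `B_k` that depend only on `F, Y, u, Q, m, w`.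
If `Y ^ (m + i) ∣ v`, then `Y ^ i` divides `B_k v`. -/
def StmAdj : Prop := ∀ (n : ℕ) (F Y u : MvPolynomial (Fin n) ℂ), ∀ Q ∈ weylS (Fin n),
  ∃ m0 : ℕ, ∀ m, m0 ≤ m → ∀ w : Fin n → MvPolynomial (Fin n) ℂ,
  ∃ (K : ℕ) (B : ℕ → (MvPolynomial (Fin n) ℂ →ₗ[ℂ] MvPolynomial (Fin n) ℂ)),
    (∀ k v i, Y ^ (m + i) ∣ v → Y ^ i ∣ B k v) ∧
    ∀ (s : ℕ) (H : MvPolynomial (Fin n) ℂ), ∃ W : MvPolynomial (Fin n) ℂ,
      Q (u ^ (s + m) * H) = u ^ s * W ∧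
      (∀ i, F ^ (m + i) ∣ H → F ^ i ∣ W) ∧ (∀ i, Y ^ (m + i) ∣ H → Y ^ i ∣ W) ∧
      ∀ (v : MvPolynomial (Fin n) ℂ) (Λ : MvPolynomial (Fin n) ℂ →ₗ[ℂ] ℂ), IsIBP F Y w Λ →
        F ^ m ∣ H → (Y ^ m ∣ H ∨ Y ^ m ∣ v) →
        Λ (v * W) = Λ ((∑ k ∈ Finset.range K, ((s : ℂ) ^ k) • B k v) * H)

end Pool.Agent.K3h15.DM
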