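import Pool.Agent.K3h58.DM.V12

set_option autoImplicit false

namespace Pool.Agent.K3h15.DM

theorem t_V2 : StmV2 := Pool.Agent.K3h58.DM.t_V2

end Pool.Agent.K3h15.DM
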